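import Pool.Agent.Helper54.DFH.Basic

/-! The criterion makes the action on the cosets of members of the family amenable. -/

namespace Pool.Agent.Helper54.DFH

open Finsupp

universe u v w

/-- The trivial group is a Dress group. -/
theorem isDress_bot {F : Type*} [Group F] : IsDress (⊥ : Subgroup F) := by
  refine ⟨inferInstance, 2, 2, Nat.prime_two, Nat.prime_two, ⊤, inferInstance, ⊤,
    inferInstance, ?_, ?_, ?_⟩
  · intro g
    exact ⟨0, by simpa using Subsingleton.elim _ _⟩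
  · have : Subsingleton ((⊤ : Subgroup (⊥ : Subgroup F)) ⧸
        (⊤ : Subgroup (⊤ : Subgroup (⊥ : Subgroup F)))) := QuotientGroup.subsingleton_quotient_top
    infer_instance
  · intro g
    have : Subsingleton ((⊥ : Subgroup F) ⧸ (⊤ : Subgroup (⊥ : Subgroup F))) :=
      QuotientGroup.subsingleton_quotient_top
    exact ⟨0, Subsingleton.elim _ _⟩

variable {G : Type u} [Group G]

/-- The set of all cosets of members of the family. -/
abbrev Cosets (𝓕 : Set (Subgroup G)) : Type u := Σ H : 𝓕, G ⧸ (H : Subgroup G)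

/-- Main construction: a contraction for the kernel of a map onto a finite group gives an
almost invariant probability measure on the cosets. -/
theorem exists_almost_inv (𝓕 : Set (Subgroup G)) (h𝓕 : 𝓕.Nonempty)
    {S : Set G} (hsymm : ∀ s ∈ S, s⁻¹ ∈ S)
    {F : Type} [Group F] [Finite F] (π : G →* F) (hπ : Function.Surjective π) {N : ℕ} {ε : ℝ}
    (H : Subgroup G) (hmem : ∀ g : G, g ∈ H ↔ π g = 1)
    (hc : HasContraction.{u, v} S 𝓕 N ε H) :
    ∃ f : Cosets 𝓕 →₀ ℝ, IsProb f ∧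
      ∀ s ∈ S, nrm (f.mapDomain (fun x => s • x) - f) ≤ ε := by
  classical
  obtain ⟨V, _, K, hK, -, hKinv, hiso, φ, hφ, hφeq, hφε⟩ := hc
  obtain ⟨F0, hF0⟩ := h𝓕
  -- orbit representatives
  let rep : V → V := fun w => (Quotient.mk (MulAction.orbitRel H V) w).out
  have hrep : ∀ w, ∃ h : H, h • rep w = w := by
    intro w
    have h1 : (MulAction.orbitRel H V) (rep w) w := Quotient.mk_out (s := MulAction.orbitRel H V) w
    exact MulAction.mem_orbit_iff.mp
      (MulAction.orbitRel_apply.mp ((MulAction.orbitRel H V).symm h1))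
  have hrepinv : ∀ (h : H) (w : V), rep (h • w) = rep w := by
    intro h w
    have : Quotient.mk (MulAction.orbitRel H V) (h • w)
        = Quotient.mk (MulAction.orbitRel H V) w :=
      Quotient.sound (by
        change (MulAction.orbitRel H V) (h • w) w
        rw [MulAction.orbitRel_apply]
        exact MulAction.mem_orbit _ _)
    show (Quotient.mk (MulAction.orbitRel H V) (h • w)).out
      = (Quotient.mk (MulAction.orbitRel H V) w).out
    rw [this]
  choose tr htr using hrep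
  -- isotropy group of the representative
  let L : V → Subgroup G := fun w => isotropy H (single (rep w) (1 : ℝ))
  have hLinv : ∀ (h : H) (w : V), L (h • w) = L w := fun h w => by
    show isotropy H (single (rep (h • w)) (1 : ℝ)) = isotropy H (single (rep w) (1 : ℝ))
    rw [hrepinv]
  have hLmem : ∀ (w : V) (h : H), h • rep w = rep w → (h : G) ∈ L w := by
    intro w h hh
    refine ⟨h.2, fun y => ?_⟩
    have h3 : (⟨(h : G), h.2⟩ : H) = h := rfl
    rw [h3, Finsupp.single_apply, Finsupp.single_apply]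
    have h4 : (rep w = h • y) ↔ (rep w = y) := by
      constructor
      · intro h5
        have : h • rep w = h • y := by rw [hh]; exact h5
        exact smul_left_cancel h this
      · intro h5
        rw [← h5, hh]
    simp [h4]
  -- vertices occurring
  have hvert : ∀ w : V, {w} ∈ K → L w ∈ 𝓕 := by
    intro w hw
    refine hiso _ ⟨isProb_single _, ?_⟩
    have h1 : ((tr w)⁻¹ : H) • w = rep w := by rw [inv_smul_eq_iff, htr]
    have h2 := hKinv (tr w)⁻¹ {w} hw
    rw [Finset.map_singleton] at h2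
    have h3 : (MulAction.toPerm (tr w)⁻¹).toEmbedding w = rep w := by
      rw [← h1]; rfl
    rw [h3] at h2
    rwa [Finsupp.support_single_ne_zero _ one_ne_zero]
  have hsupp : ∀ (g : G) (w : V), w ∈ (φ g).support → {w} ∈ K := by
    intro g w hw
    exact hK.down _ (hφ g).2 {w} (Finset.singleton_subset_iff.mpr hw) (Finset.singleton_nonempty w)
  let θ : G → V → Cosets 𝓕 := fun g w =>
    if hw : L w ∈ 𝓕 then ⟨⟨L w, hw⟩, ((g⁻¹ * (tr w : G) : G) : G ⧸ L w)⟩
    else ⟨⟨F0, hF0⟩, ((g⁻¹ * (tr w : G) : G) : G ⧸ F0)⟩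
  have hθs : ∀ (g s : G) (w : V), θ (g * s) w = s⁻¹ • θ g w := by
    intro g s w
    show (if hw : L w ∈ 𝓕 then (⟨⟨L w, hw⟩, (((g * s)⁻¹ * (tr w : G) : G) : G ⧸ L w)⟩ : Cosets 𝓕)
      else ⟨⟨F0, hF0⟩, (((g * s)⁻¹ * (tr w : G) : G) : G ⧸ F0)⟩)
      = s⁻¹ • (if hw : L w ∈ 𝓕 then (⟨⟨L w, hw⟩, ((g⁻¹ * (tr w : G) : G) : G ⧸ L w)⟩ : Cosets 𝓕)
      else ⟨⟨F0, hF0⟩, ((g⁻¹ * (tr w : G) : G) : G ⧸ F0)⟩)
    by_cases hw : L w ∈ 𝓕
    · rw [dif_pos hw, dif_pos hw]
      have : (((g * s)⁻¹ * (tr w : G) : G) : G ⧸ L w)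
          = s⁻¹ • (((g⁻¹ * (tr w : G) : G)) : G ⧸ L w) := by
        rw [mul_inv_rev, mul_assoc]; rfl
      rw [this]; rfl
    · rw [dif_neg hw, dif_neg hw]
      have : (((g * s)⁻¹ * (tr w : G) : G) : G ⧸ F0)
          = s⁻¹ • (((g⁻¹ * (tr w : G) : G)) : G ⧸ F0) := by
        rw [mul_inv_rev, mul_assoc]; rfl
      rw [this]; rfl
  have hθh : ∀ (h : H) (g : G) (w : V), L w ∈ 𝓕 → θ (h * g) (h • w) = θ g w := by
    intro h g w hw
    have hw' : L (h • w) ∈ 𝓕 := by rw [hLinv]; exact hw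
    show (if hw : L (h • w) ∈ 𝓕 then (⟨⟨L (h • w), hw⟩,
        ((((h : G) * g)⁻¹ * (tr (h • w) : G) : G) : G ⧸ L (h • w))⟩ : Cosets 𝓕)
      else ⟨⟨F0, hF0⟩, ((((h : G) * g)⁻¹ * (tr (h • w) : G) : G) : G ⧸ F0)⟩)
      = (if hw : L w ∈ 𝓕 then (⟨⟨L w, hw⟩, ((g⁻¹ * (tr w : G) : G) : G ⧸ L w)⟩ : Cosets 𝓕)
      else ⟨⟨F0, hF0⟩, ((g⁻¹ * (tr w : G) : G) : G ⧸ F0)⟩)
    rw [dif_pos hw, dif_pos hw']
    have key : ∀ (A B : Subgroup G) (hA : A ∈ 𝓕) (hB : B ∈ 𝓕) (_ : A = B) (a b : G),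
        a⁻¹ * b ∈ B → (⟨⟨A, hA⟩, (a : G ⧸ A)⟩ : Cosets 𝓕) = ⟨⟨B, hB⟩, (b : G ⧸ B)⟩ := by
      intro A B hA hB hAB a b hab
      subst hAB
      have : (a : G ⧸ A) = (b : G ⧸ A) := by rw [QuotientGroup.eq]; exact hab
      rw [this]
    refine key _ _ hw' hw (hLinv h w) _ _ ?_
    -- the element lies in the isotropy group
    have h1 : ((tr (h • w))⁻¹ * h * tr w : H) • rep w = rep w := by
      rw [mul_smul, mul_smul, htr w, inv_smul_eq_iff]
      have := htr (h • w)
      rw [hrepinv] at this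
      exact this.symm
    have h2 := hLmem w _ h1
    have h3 : ((((tr (h • w))⁻¹ * h * tr w : H)) : G)
        = (((h : G) * g)⁻¹ * (tr (h • w) : G))⁻¹ * (g⁻¹ * (tr w : G)) := by
      push_cast
      group
    rw [h3] at h2
    exact h2
  -- the measures ν g
  let ν : G → (Cosets 𝓕 →₀ ℝ) := fun g => (φ g).mapDomain (θ g)
  have hν : ∀ g, IsProb (ν g) := fun g => isProb_mapDomain _ (hφ g).1
  have hνh : ∀ (h : H) (g : G), ν (h * g) = ν g := by
    intro h g
    show (φ (h * g)).mapDomain (θ (h * g)) = (φ g).mapDomain (θ g)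
    have h1 : φ (h * g) = (φ g).mapDomain (fun w => h • w) := by
      ext y
      have h2 : y = h • (h⁻¹ • y) := by rw [smul_inv_smul]
      rw [h2, hφeq, Finsupp.mapDomain_apply (MulAction.injective h)]
    rw [h1, ← Finsupp.mapDomain_comp]
    refine Finsupp.mapDomain_congr fun w hw => ?_
    exact hθh h g w (hvert w (hsupp g w hw))
  have hνs : ∀ (g s : G), s⁻¹ ∈ S →
      nrm ((ν g).mapDomain (fun x => s • x) - ν (g * s⁻¹)) ≤ ε := by
    intro g s hs
    have h1 : (ν g).mapDomain (fun x => s • x) = (φ g).mapDomain (θ (g * s⁻¹)) := by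
      show ((φ g).mapDomain (θ g)).mapDomain (fun x => s • x) = _
      rw [← Finsupp.mapDomain_comp]
      refine Finsupp.mapDomain_congr fun w _ => ?_
      show s • θ g w = θ (g * s⁻¹) w
      rw [hθs, inv_inv]
    rw [h1]
    show nrm ((φ g).mapDomain (θ (g * s⁻¹)) - (φ (g * s⁻¹)).mapDomain (θ (g * s⁻¹))) ≤ ε
    rw [← mapDomain_sub]
    refine (nrm_mapDomain_le _ _).trans (hφε _ _ ?_)
    simpa using hs
  -- averaging over the finite group
  letI : Fintype F := Fintype.ofFinite F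
  choose sec hsec using hπ
  have hνπ : ∀ g g' : G, π g = π g' → ν g = ν g' := by
    intro g g' hgg
    have h1 : g * g'⁻¹ ∈ H := by rw [hmem, map_mul, map_inv, hgg, mul_inv_cancel]
    have h2 := hνh ⟨_, h1⟩ g'
    simpa using h2
  have hcard : (0 : ℝ) < Fintype.card F := by
    have : 0 < Fintype.card F := Fintype.card_pos
    exact_mod_cast this
  let m : Cosets 𝓕 →₀ ℝ := ∑ c : F, ((Fintype.card F : ℝ)⁻¹) • ν (sec c)
  refine ⟨m, ⟨?_, ?_⟩, ?_⟩
  · intro x
    show 0 ≤ (∑ c : F, ((Fintype.card F : ℝ)⁻¹) • ν (sec c)) x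
    rw [Finsupp.finsetSum_apply]
    refine Finset.sum_nonneg fun c _ => ?_
    rw [Finsupp.smul_apply, smul_eq_mul]
    exact mul_nonneg (by positivity) ((hν _).1 x)
  · rw [← tot_apply]
    show tot (∑ c : F, ((Fintype.card F : ℝ)⁻¹) • ν (sec c)) = 1
    rw [map_sum]
    have : ∀ c ∈ (Finset.univ : Finset F), tot (((Fintype.card F : ℝ)⁻¹) • ν (sec c))
        = (Fintype.card F : ℝ)⁻¹ := by
      intro c _
      rw [map_smul, tot_apply, (hν _).2, smul_eq_mul, mul_one]
    rw [Finset.sum_congr rfl this, Finset.sum_const, Finset.card_univ, nsmul_eq_mul]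
    field_simp
  · intro s hs
    have hs' : s⁻¹ ∈ S := hsymm s hs
    have h1 : m = ∑ c : F, ((Fintype.card F : ℝ)⁻¹) • ν (sec c * s⁻¹) := by
      show (∑ c : F, ((Fintype.card F : ℝ)⁻¹) • ν (sec c)) = _
      refine Fintype.sum_equiv (Equiv.mulRight (π s)) _ _ fun c => ?_
      congr 1
      refine hνπ _ _ ?_
      simp [hsec]
    have h2 : m.mapDomain (fun x => s • x)
        = ∑ c : F, ((Fintype.card F : ℝ)⁻¹) • (ν (sec c)).mapDomain (fun x => s • x) := by
      show (∑ c : F, ((Fintype.card F : ℝ)⁻¹) • ν (sec c)).mapDomain (fun x => s • x) = _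
      rw [Finsupp.mapDomain_finsetSum]
      exact Finset.sum_congr rfl fun c _ => by rw [Finsupp.mapDomain_smul]
    have h3 : m.mapDomain (fun x => s • x) - m
        = ∑ c : F, ((Fintype.card F : ℝ)⁻¹) •
            ((ν (sec c)).mapDomain (fun x => s • x) - ν (sec c * s⁻¹)) := by
      rw [h2]
      conv_lhs => rw [h1]
      rw [← Finset.sum_sub_distrib]
      exact Finset.sum_congr rfl fun c _ => by rw [smul_sub]
    rw [h3]
    refine (nrm_sum_le _ _).trans ?_
    have h4 : ∀ c ∈ (Finset.univ : Finset F), nrm (((Fintype.card F : ℝ)⁻¹) •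
        ((ν (sec c)).mapDomain (fun x => s • x) - ν (sec c * s⁻¹)))
        ≤ (Fintype.card F : ℝ)⁻¹ * ε := by
      intro c _
      rw [nrm_smul, abs_of_pos (by positivity)]
      exact mul_le_mul_of_nonneg_left (hνs _ _ hs') (by positivity)
    refine (Finset.sum_le_sum h4).trans ?_
    rw [Finset.sum_const, Finset.card_univ, nsmul_eq_mul]
    have : (Fintype.card F : ℝ) * ((Fintype.card F : ℝ)⁻¹ * ε) = ε := by field_simp
    rw [this]

/-- The criterion implies that the action on the cosets of members of the family is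
amenable. -/
theorem cosets_amenable {S : Set G} (hsymm : ∀ s ∈ S, s⁻¹ ∈ S)
    (hgen : Subgroup.closure S = ⊤) {𝓕 : Set (Subgroup G)} (h𝓕 : 𝓕.Nonempty)
    (hcrit : Criterion.{u, v} S 𝓕) : AmenableAction G (Cosets 𝓕) := by
  obtain ⟨N, hN⟩ := hcrit
  refine amenableAction_of_gen hsymm hgen fun δ hδ => ?_
  obtain ⟨F, _, _, π, hπ, hD⟩ := hN δ hδ
  exact exists_almost_inv 𝓕 h𝓕 hsymm π hπ _
    (fun g => by rw [Subgroup.mem_comap, Subgroup.mem_bot]) (hD ⊥ isDress_bot)

end Pool.Agent.Helper54.DFH
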