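import Pool.Agent.Helper54.DFH.Basic

/-! Gap argument: subgroups with Dress image in the finite quotient lie in the family. -/

namespace Pool.Agent.Helper54.DFH

open Finsupp

universe u v w

/-- The elements of `G` that are products of at most `r` elements of `S`. -/
def Ball {G : Type u} [Group G] (S : Set G) (r : ℕ) : Set G :=
  {g | ∃ l : List G, l.length ≤ r ∧ (∀ s ∈ l, s ∈ S) ∧ l.prod = g}

variable {G : Type u} [Group G]

theorem abs_apply_le {X : Type v} (x : X →₀ ℝ) (a : X) : |x a| ≤ nrm x := by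
  classical
  by_cases ha : a ∈ x.support
  · rw [nrm_eq_sum (Finset.Subset.refl _)]
    exact Finset.single_le_sum (f := fun v => |x v|) (fun i _ => abs_nonneg _) ha
  · rw [Finsupp.notMem_support_iff] at ha
    rw [ha, abs_zero]
    exact nrm_nonneg x

/-- Displacement along a word. -/
theorem displacement {V : Type v} {S : Set G} {ε : ℝ} (φ : G → (V →₀ ℝ))
    (hφε : ∀ g g' : G, g⁻¹ * g' ∈ S → nrm (φ g - φ g') ≤ ε) (l : List G)
    (hl : ∀ s ∈ l, s ∈ S) : ∀ g : G, nrm (φ g - φ (g * l.prod)) ≤ l.length * ε := by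
  induction l with
  | nil => intro g; simp
  | cons s t ih =>
    intro g
    have h1 : nrm (φ g - φ (g * s)) ≤ ε := hφε _ _ (by
      simpa using hl s (by simp))
    have h2 := ih (fun s hs => hl s (by simp [hs])) (g * s)
    have h3 : g * (s :: t).prod = g * s * t.prod := by simp [mul_assoc]
    rw [h3]
    refine (nrm_sub_le_add _ (φ (g * s)) _).trans ?_
    rw [List.length_cons]
    push_cast
    linarith

/-- The gap lemma: a set of levels avoided by the coordinates of a point. -/
theorem exists_gap {V : Type v} (x : V →₀ ℝ) (hx : IsProb x) (N : ℕ)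
    (hN : x.support.card ≤ N + 1) (δ : ℝ) (hδ : 0 < δ) (hδN : (N + 1) * δ < 1 / (N + 1)) :
    ∃ c : ℝ, 0 ≤ c ∧ (∃ v, c < x v) ∧ ∀ v, c < x v → c + δ < x v := by
  classical
  have hNpos : (0 : ℝ) < N + 1 := by positivity
  -- a large coordinate
  obtain ⟨v0, hv0s, hv0⟩ : ∃ v ∈ x.support, 1 / (N + 1 : ℝ) ≤ x v := by
    by_contra hcon
    push Not at hcon
    have h1 : (x.sum fun _ r => r) < 1 := by
      have h2 : ∑ v ∈ x.support, x v < ∑ _v ∈ x.support, 1 / (N + 1 : ℝ) :=
        Finset.sum_lt_sum_of_nonempty hx.support_nonempty fun v hv => hcon v hv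
      rw [Finset.sum_const, nsmul_eq_mul] at h2
      have h3 : (x.support.card : ℝ) ≤ N + 1 := by exact_mod_cast hN
      have h4 : (x.support.card : ℝ) * (1 / (N + 1 : ℝ)) ≤ (N + 1) * (1 / (N + 1 : ℝ)) :=
        mul_le_mul_of_nonneg_right h3 (by positivity)
      have h5 : (N + 1 : ℝ) * (1 / (N + 1 : ℝ)) = 1 := by field_simp
      show ∑ v ∈ x.support, x v < 1
      linarith
    rw [hx.2] at h1
    exact lt_irrefl _ h1
  -- pigeonhole over the N+1 levels
  by_contra hcon
  push Not at hcon
  have hlev : ∀ j : Fin (N + 1), ∃ v ∈ x.support.erase v0,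
      (j : ℝ) * δ < x v ∧ x v ≤ (j : ℝ) * δ + δ := by
    intro j
    have hj1 : (j : ℝ) ≤ N := by
      have : (j : ℕ) ≤ N := Nat.lt_succ_iff.mp j.2
      exact_mod_cast this
    have hjv0 : (j : ℝ) * δ + δ < x v0 := by
      have : (j : ℝ) * δ + δ ≤ (N + 1) * δ := by nlinarith
      linarith
    obtain ⟨v, hv1, hv2⟩ := hcon ((j : ℝ) * δ) (by positivity) ⟨v0, by linarith⟩
    refine ⟨v, Finset.mem_erase.mpr ⟨?_, ?_⟩, hv1, hv2⟩
    · rintro rfl
      linarith
    · rw [Finsupp.mem_support_iff]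
      have : 0 ≤ (j : ℝ) * δ := by positivity
      exact (lt_of_le_of_lt this hv1).ne'
  choose f hf1 hf2 hf3 using hlev
  have hinj : Function.Injective f := by
    intro i j hij
    by_contra hne
    rcases lt_or_gt_of_ne hne with h | h
    · have h1 : (i : ℝ) + 1 ≤ j := by exact_mod_cast h
      have h2 := hf3 i
      have h3 := hf2 j
      rw [hij] at h2
      nlinarith
    · have h1 : (j : ℝ) + 1 ≤ i := by exact_mod_cast h
      have h2 := hf3 j
      have h3 := hf2 i
      rw [← hij] at h2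
      nlinarith
  have hcard : Fintype.card (Fin (N + 1)) ≤ (x.support.erase v0).card := by
    rw [← Finset.card_univ]
    exact Finset.card_le_card_of_injOn f (fun i _ => hf1 i) (hinj.injOn)
  rw [Fintype.card_fin, Finset.card_erase_of_mem hv0s] at hcard
  omega

/-- If a subgroup generated by short elements has its image in a Dress group (more generally
is contained in a subgroup with a contraction), then it lies in the family. -/
theorem mem_of_contraction {𝓕 : Set (Subgroup G)} (h𝓕 : IsFamily 𝓕) {S : Set G} {N r : ℕ}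
    {ε : ℝ} (hε : 0 ≤ ε) (hr : ((r : ℝ) * ε) * (N + 2) ^ 2 ≤ 1) (H : Subgroup G)
    (hc : HasContraction.{u, v} S 𝓕 N ε H) (T : Set G) (hT : T ⊆ Ball S r) (hTH : T ⊆ H) :
    Subgroup.closure T ∈ 𝓕 := by
  classical
  obtain ⟨V, _, K, hK, hdim, -, hiso, φ, hφ, hφeq, hφε⟩ := hc
  set x := φ 1 with hx
  set δ : ℝ := 1 / (N + 2) ^ 2 with hδ
  have hδpos : 0 < δ := by positivity
  have hδN : (N + 1 : ℝ) * δ < 1 / (N + 1) := by
    rw [hδ, mul_one_div, div_lt_div_iff₀ (by positivity) (by positivity)]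
    nlinarith [Nat.cast_nonneg (α := ℝ) N]
  obtain ⟨c, hc0, ⟨v0, hv0⟩, hgap⟩ := exists_gap x (hφ 1).1 N (hdim _ (hφ 1).2) δ hδpos hδN
  let W : Finset V := x.support.filter fun v => c < x v
  have hWmem : ∀ v, v ∈ W ↔ c < x v := by
    intro v
    rw [Finset.mem_filter, Finsupp.mem_support_iff]
    exact ⟨fun h => h.2, fun h => ⟨(lt_of_le_of_lt hc0 h).ne', h⟩⟩
  have hWne : W.Nonempty := ⟨v0, (hWmem v0).mpr hv0⟩
  have hWK : W ∈ K := hK.down _ (hφ 1).2 W (Finset.filter_subset _ _) hWne
  have hcardpos : (0 : ℝ) < W.card := by exact_mod_cast hWne.card_pos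
  -- the barycentre of W
  let b : V →₀ ℝ := Finsupp.onFinset W (fun v => if v ∈ W then (W.card : ℝ)⁻¹ else 0)
    (fun v hv => by by_contra h; simp [h] at hv)
  have hb : ∀ v, b v = if v ∈ W then (W.card : ℝ)⁻¹ else 0 := fun v => rfl
  have hbs : b.support = W := by
    ext v
    rw [Finsupp.mem_support_iff, hb]
    by_cases hv : v ∈ W
    · simp only [hv, if_true, iff_true]
      exact (inv_pos.mpr hcardpos).ne'
    · simp [hv]
  have hbp : IsPoint K b := by
    refine ⟨⟨fun v => ?_, ?_⟩, by rw [hbs]; exact hWK⟩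
    · rw [hb]
      split_ifs
      · positivity
      · exact le_rfl
    · show ∑ v ∈ b.support, b v = 1
      rw [hbs]
      have : ∀ v ∈ W, b v = (W.card : ℝ)⁻¹ := fun v hv => by rw [hb, if_pos hv]
      rw [Finset.sum_congr rfl this, Finset.sum_const, nsmul_eq_mul]
      field_simp
  have hmem := hiso b hbp
  refine h𝓕.sub _ hmem _ ?_
  rw [Subgroup.closure_le]
  intro t ht
  have htH : t ∈ H := hTH ht
  set h : H := ⟨t, htH⟩ with hh
  obtain ⟨l, hl1, hl2, hl3⟩ := hT ht
  have hdis : ∀ v : V, |x v - x (h • v)| ≤ δ := by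
    intro v
    have h1 := displacement φ hφε l hl2 1
    rw [hl3, one_mul] at h1
    have h2 : φ t (h • v) = x v := by
      have := hφeq h 1 v
      rwa [mul_one] at this
    have h3 : |x v - x (h • v)| ≤ nrm (φ 1 - φ t) := by
      rw [← h2, abs_sub_comm]
      exact abs_apply_le (φ 1 - φ t) (h • v)
    have h4 : (l.length : ℝ) * ε ≤ r * ε :=
      mul_le_mul_of_nonneg_right (by exact_mod_cast hl1) hε
    have h5 : (r : ℝ) * ε ≤ δ := by
      rw [hδ, le_div_iff₀ (by positivity)]
      exact hr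
    linarith
  have hW1 : ∀ v, v ∈ W → h • v ∈ W := by
    intro v hv
    rw [hWmem] at hv ⊢
    have h1 := hgap v hv
    have h2 := hdis v
    rw [abs_le] at h2
    linarith
  have hW2 : ∀ v, h • v ∈ W ↔ v ∈ W := by
    intro v
    constructor
    · intro hv
      have h1 : W.image (fun v => h • v) = W := by
        apply Finset.eq_of_subset_of_card_le
        · intro w hw
          obtain ⟨v, hv, rfl⟩ := Finset.mem_image.mp hw
          exact hW1 v hv
        · rw [Finset.card_image_of_injective _ (MulAction.injective h)]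
      rw [← h1] at hv
      obtain ⟨w, hw, hwv⟩ := Finset.mem_image.mp hv
      have : w = v := smul_left_cancel h hwv
      rwa [← this]
    · exact hW1 v
  refine ⟨htH, fun v => ?_⟩
  rw [hb, hb]
  have h9 := hW2 v
  by_cases hv : v ∈ W
  · rw [if_pos hv, if_pos (h9.mpr hv)]
  · rw [if_neg hv, if_neg (fun h' => hv (h9.mp h'))]

end Pool.Agent.Helper54.DFH
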