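import Pool.Agent.Helper54.DFH.AsdimDef
import Pool.Agent.Helper54.DFH.Gap
import Pool.Agent.Helper54.DFH.Coset

/-! The criterion bounds the asymptotic dimension. -/

namespace Pool.Agent.Helper54.DFH

open Finsupp

universe u v w

section lab

variable {G : Type u} [Group G]

/-- Labelled colourings give bounds of the asymptotic dimension. -/
theorem asdim_of_label {n : ℕ} (h : ∀ R : Finset G, ∃ (Λ : Type w) (C : Type) (_ : Fintype C)
    (_ : Fintype.card C = n + 1) (c : G → C) (lab : G → Λ) (B : Finset G), ∀ x y : G, c x = c y →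
      (lab x = lab y → x⁻¹ * y ∈ B) ∧ (x⁻¹ * y ∈ R → lab x = lab y)) : AsdimLE G n := by
  classical
  intro R
  obtain ⟨Λ, C, _, hC, c, lab, B, hB⟩ := h R
  let e : C ≃ Fin (n + 1) := Fintype.equivFinOfCardEq hC
  refine ⟨fun i => {U | ∃ l : Λ, U = {g | e (c g) = i ∧ lab g = l}}, B, ?_, ?_, ?_⟩
  · intro g
    exact ⟨e (c g), _, ⟨lab g, rfl⟩, rfl, rfl⟩
  · rintro i U ⟨l, rfl⟩ x ⟨hx1, hx2⟩ y ⟨hy1, hy2⟩
    exact (hB x y (e.injective (hx1.trans hy1.symm))).1 (hx2.trans hy2.symm)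
  · rintro i U ⟨l, rfl⟩ W ⟨l', rfl⟩ hne x ⟨hx1, hx2⟩ y ⟨hy1, hy2⟩ hR
    have h1 := (hB x y (e.injective (hx1.trans hy1.symm))).2 hR
    apply hne
    rw [← hx2, ← hy2, h1]

theorem label_of_asdim {n : ℕ} (h : AsdimLE G n) (R : Finset G) :
    ∃ (c : G → Fin (n + 1)) (lab : G → Set G) (B : Finset G), ∀ x y : G, c x = c y →
      (lab x = lab y → x⁻¹ * y ∈ B) ∧ (x⁻¹ * y ∈ R → lab x = lab y) := by
  obtain ⟨𝒰, B, h1, h2, h3⟩ := h R
  choose c lab hlab hmem using h1
  refine ⟨c, lab, B, fun x y hxy => ⟨fun hl => ?_, fun hR => ?_⟩⟩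
  · exact h2 _ _ (hlab x) x (hmem x) y (by rw [hl]; exact hmem y)
  · by_contra hne
    refine h3 (c x) _ (hlab x) _ ?_ hne x (hmem x) y (hmem y) hR
    rw [hxy]
    exact hlab y

/-- Labelled colouring of finitely many cosets `L q`, `q ∈ Q`. -/
theorem label_cosets (L : Subgroup G) {k : ℕ} (hL : AsdimLE L k) (Q R : Finset G) :
    ∃ (c : G → Fin (k + 1)) (lab : G → Set G) (B : Finset G), ∀ x y : G,
      (∃ q ∈ Q, x * q⁻¹ ∈ L) → (∃ q ∈ Q, y * q⁻¹ ∈ L) → c x = c y →
      (lab x = lab y → x⁻¹ * y ∈ B) ∧ (x⁻¹ * y ∈ R → lab x = lab y) := by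
  classical
  -- the finite set of `l⁻¹ l'` that can occur
  let RL : Finset L := ((Q ×ˢ Q) ×ˢ R).image fun p =>
    if h : p.1.1 * p.2 * p.1.2⁻¹ ∈ L then (⟨_, h⟩ : L) else 1
  obtain ⟨c, lab, B, hB⟩ := label_of_asdim hL RL
  -- the chosen representative
  let q : G → G := fun x => if h : ∃ q ∈ Q, x * q⁻¹ ∈ L then h.choose else 1
  have hq : ∀ x, (∃ q ∈ Q, x * q⁻¹ ∈ L) → q x ∈ Q ∧ x * (q x)⁻¹ ∈ L := by
    intro x hx
    have : q x = hx.choose := by
      show (if h : ∃ q ∈ Q, x * q⁻¹ ∈ L then h.choose else 1) = _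
      rw [dif_pos hx]
    rw [this]
    exact hx.choose_spec
  let l : G → L := fun x => if h : x * (q x)⁻¹ ∈ L then ⟨_, h⟩ else 1
  have hl : ∀ x, (∃ q ∈ Q, x * q⁻¹ ∈ L) → x = (l x : G) * q x := by
    intro x hx
    have h1 := (hq x hx).2
    have : l x = ⟨_, h1⟩ := by
      show (if h : x * (q x)⁻¹ ∈ L then (⟨_, h⟩ : L) else 1) = _
      rw [dif_pos h1]
    rw [this]
    simp
  have hinj : Function.Injective (Set.image ((↑) : L → G)) :=
    Set.image_injective.mpr Subtype.val_injective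
  refine ⟨fun x => c (l x), fun x => ((↑) : L → G) '' lab (l x),
    (Q ×ˢ Q ×ˢ B).image fun p => p.1⁻¹ * (p.2.2 : G) * p.2.1, fun x y hx hy hxy => ⟨?_, ?_⟩⟩
  · intro hlab
    have h1 := (hB (l x) (l y) hxy).1 (hinj hlab)
    refine Finset.mem_image.mpr ⟨(q x, q y, (l x)⁻¹ * l y), ?_, ?_⟩
    · exact Finset.mem_product.mpr ⟨(hq x hx).1, Finset.mem_product.mpr ⟨(hq y hy).1, h1⟩⟩
    · show (q x)⁻¹ * (((l x)⁻¹ * l y : L) : G) * q y = x⁻¹ * y
      conv_rhs => rw [hl x hx, hl y hy]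
      push_cast
      group
  · intro hR
    refine congrArg (Set.image ((↑) : L → G)) ((hB (l x) (l y) hxy).2 ?_)
    refine Finset.mem_image.mpr ⟨((q x, q y), x⁻¹ * y), ?_, ?_⟩
    · exact Finset.mem_product.mpr ⟨Finset.mem_product.mpr ⟨(hq x hx).1, (hq y hy).1⟩, hR⟩
    · have h1 : q x * (x⁻¹ * y) * (q y)⁻¹ = (((l x)⁻¹ * l y : L) : G) := by
        conv_lhs => rw [show x⁻¹ = ((l x : G) * q x)⁻¹ by rw [← hl x hx]]
        conv_lhs => rw [show q x * (((l x : G) * q x)⁻¹ * y) * (q y)⁻¹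
          = q x * (((l x : G) * q x)⁻¹ * ((l y : G) * q y)) * (q y)⁻¹ by rw [← hl y hy]]
        push_cast
        group
      have h2 : q x * (x⁻¹ * y) * (q y)⁻¹ ∈ L := by rw [h1]; exact Subtype.mem _
      show (if h : q x * (x⁻¹ * y) * (q y)⁻¹ ∈ L then (⟨_, h⟩ : L) else 1) = (l x)⁻¹ * l y
      rw [dif_pos h2]
      exact Subtype.ext h1

end lab

/-- `W` is a superlevel set of `x` with a gap `δ`. -/
def Lev {V : Type v} (δ : ℝ) (x : V →₀ ℝ) (W : Finset V) : Prop :=
  W.Nonempty ∧ ∃ c : ℝ, 0 ≤ c ∧ (∀ v, v ∈ W ↔ c < x v) ∧ ∀ v ∈ W, c + δ < x v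

theorem Lev.eq_of_card {V : Type v} {δ : ℝ} {x : V →₀ ℝ} {W W' : Finset V} (h : Lev δ x W)
    (h' : Lev δ x W') (hc : W.card = W'.card) : W = W' := by
  obtain ⟨-, c, -, h1, -⟩ := h
  obtain ⟨-, c', -, h1', -⟩ := h'
  rcases le_total c c' with hcc | hcc
  · refine (Finset.eq_of_subset_of_card_le (fun v hv => ?_) hc.le).symm
    rw [h1]
    exact lt_of_le_of_lt hcc ((h1' v).mp hv)
  · refine Finset.eq_of_subset_of_card_le (fun v hv => ?_) hc.ge
    rw [h1']
    exact lt_of_le_of_lt hcc ((h1 v).mp hv)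

theorem exists_lev {V : Type v} (x : V →₀ ℝ) (hx : IsProb x) (N : ℕ)
    (hN : x.support.card ≤ N + 1) (δ : ℝ) (hδ : 0 < δ) (hδN : (N + 1) * δ < 1 / (N + 1)) :
    ∃ W, Lev δ x W := by
  classical
  obtain ⟨c, hc0, ⟨v0, hv0⟩, hgap⟩ := exists_gap x hx N hN δ hδ hδN
  have hmem : ∀ v, v ∈ x.support.filter (fun v => c < x v) ↔ c < x v := by
    intro v
    rw [Finset.mem_filter, Finsupp.mem_support_iff]
    exact ⟨fun h => h.2, fun h => ⟨(lt_of_le_of_lt hc0 h).ne', h⟩⟩
  exact ⟨x.support.filter (fun v => c < x v), ⟨v0, (hmem v0).mpr hv0⟩, c, hc0, hmem,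
    fun v hv => hgap v ((hmem v).mp hv)⟩

theorem Lev.subset {V : Type v} {δ : ℝ} {x : V →₀ ℝ} {W : Finset V} (h : Lev δ x W) :
    W ⊆ x.support := by
  obtain ⟨-, c, hc, h1, -⟩ := h
  intro v hv
  rw [Finsupp.mem_support_iff]
  exact (lt_of_le_of_lt hc ((h1 v).mp hv)).ne'

/-- Two close points with superlevel sets of the same size have the same superlevel sets. -/
theorem Lev.eq_of_close {V : Type v} {δ : ℝ} {x y : V →₀ ℝ} {W W' : Finset V}
    (h : Lev δ x W) (h' : Lev δ y W') (hc : W.card = W'.card) (hxy : nrm (x - y) ≤ δ) :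
    W = W' := by
  classical
  by_contra hne
  obtain ⟨v, hv, hv'⟩ : ∃ v ∈ W, v ∉ W' := by
    by_contra hcon
    push Not at hcon
    exact hne (Finset.eq_of_subset_of_card_le hcon hc.ge)
  obtain ⟨w, hw, hw'⟩ : ∃ v ∈ W', v ∉ W := by
    by_contra hcon
    push Not at hcon
    exact hne (Finset.eq_of_subset_of_card_le hcon hc.le).symm
  obtain ⟨-, c, -, h1, h2⟩ := h
  obtain ⟨-, c', -, h1', h2'⟩ := h'
  have a1 := h2 v hv
  have a2 : x w ≤ c := by
    by_contra hcon
    exact hw' ((h1 w).mpr (not_le.mp hcon))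
  have a3 := h2' w hw
  have a4 : y v ≤ c' := by
    by_contra hcon
    exact hv' ((h1' v).mpr (not_le.mp hcon))
  have b1 := abs_apply_le (x - y) v
  have b2 := abs_apply_le (x - y) w
  rw [Finsupp.sub_apply, abs_le] at b1 b2
  linarith [b1.2, b2.1]

theorem ball_mono' {G : Type u} [Group G] {S : Set G} {r r' : ℕ} (h : r ≤ r') :
    Ball S r ⊆ Ball S r' := by
  rintro g ⟨l, h1, h2, h3⟩
  exact ⟨l, h1.trans h, h2, h3⟩

theorem exists_ball' {G : Type u} [Group G] {S : Set G} (hsymm : ∀ s ∈ S, s⁻¹ ∈ S)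
    (hgen : Subgroup.closure S = ⊤) (t : G) : ∃ r, t ∈ Ball S r := by
  have ht : t ∈ Subgroup.closure S := by rw [hgen]; trivial
  induction ht using Subgroup.closure_induction with
  | mem s hs => exact ⟨1, [s], by simp, by simpa using hs, by simp⟩
  | one => exact ⟨0, [], by simp, by simp, by simp⟩
  | mul a b _ _ iha ihb =>
    obtain ⟨r, l, h1, h2, h3⟩ := iha
    obtain ⟨r', l', h1', h2', h3'⟩ := ihb
    refine ⟨r + r', l ++ l', ?_, ?_, ?_⟩
    · rw [List.length_append]; omega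
    · intro s hs
      rcases List.mem_append.mp hs with h | h
      · exact h2 s h
      · exact h2' s h
    · rw [List.prod_append, h3, h3']
  | inv a _ iha =>
    obtain ⟨r, l, h1, h2, h3⟩ := iha
    refine ⟨r, (l.map fun x => x⁻¹).reverse, ?_, ?_, ?_⟩
    · simpa using h1
    · intro s hs
      rw [List.mem_reverse, List.mem_map] at hs
      obtain ⟨x, hx, rfl⟩ := hs
      exact hsymm x (h2 x hx)
    · rw [← List.prod_inv_reverse, h3]

theorem map_toPerm_inv {H : Type*} [Group H] {V : Type v} [MulAction H V] (h : H)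
    (A B : Finset V) (hAB : A.map (MulAction.toPerm h).toEmbedding = B) :
    B.map (MulAction.toPerm h⁻¹).toEmbedding = A := by
  subst hAB
  rw [Finset.map_map]
  have : (MulAction.toPerm h : Equiv.Perm V).toEmbedding.trans
      (MulAction.toPerm h⁻¹ : Equiv.Perm V).toEmbedding = Function.Embedding.refl V := by
    ext v
    show h⁻¹ • (h • v) = v
    rw [inv_smul_smul]
  rw [this, Finset.map_refl]

/-- The criterion bounds the asymptotic dimension. -/
theorem asdim_of_criterion {G : Type u} [Group G] {S : Set G} (hsymm : ∀ s ∈ S, s⁻¹ ∈ S)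
    (hgen : Subgroup.closure S = ⊤) {𝓕 : Set (Subgroup G)} {N k : ℕ}
    (h𝓕k : ∀ H ∈ 𝓕, AsdimLE H k) (hcrit : CriterionDim.{u, v} S 𝓕 N) :
    AsdimLE G ((N + 1) * (k + 1) - 1) := by
  classical
  refine asdim_of_label.{u, max u v} fun R => ?_
  choose rr hrr using fun t : G => exists_ball' hsymm hgen t
  set r := ∑ t ∈ R, rr t with hr
  have hRr : ∀ t ∈ R, t ∈ Ball S r := fun t ht =>
    ball_mono' (Finset.single_le_sum (f := rr) (fun _ _ => Nat.zero_le _) ht) (hrr t)
  set δ : ℝ := 1 / (N + 2) ^ 2 with hδ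
  have hδpos : 0 < δ := by positivity
  have hδN : (N + 1 : ℝ) * δ < 1 / (N + 1) := by
    rw [hδ, mul_one_div, div_lt_div_iff₀ (by positivity) (by positivity)]
    nlinarith [Nat.cast_nonneg (α := ℝ) N]
  have hεpos : (0 : ℝ) < δ / (r + 1) := by positivity
  obtain ⟨F, _, _, π, hπ, hD⟩ := hcrit _ hεpos
  have hcon := hD ⊥ isDress_bot
  have hmem : ∀ g : G, g ∈ (⊥ : Subgroup F).comap π ↔ π g = 1 := fun g => by
    rw [Subgroup.mem_comap, Subgroup.mem_bot]
  generalize (⊥ : Subgroup F).comap π = H at hcon hmem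
  obtain ⟨V, _, K, hK, hdim, -, hiso, φ, hφ, hφeq, hφε⟩ := hcon
  -- the canonical superlevel sets
  have hex : ∀ g, ∃ n, ∃ W, Lev δ (φ g) W ∧ W.card = n := fun g => by
    obtain ⟨W, hW⟩ := exists_lev (φ g) (hφ g).1 N (hdim _ (hφ g).2) δ hδpos hδN
    exact ⟨_, W, hW, rfl⟩
  let m : G → ℕ := fun g => Nat.find (hex g)
  have hm : ∀ g, ∃ W, Lev δ (φ g) W ∧ W.card = m g := fun g => Nat.find_spec (hex g)
  have hmmin : ∀ g W, Lev δ (φ g) W → m g ≤ W.card := fun g W hW =>
    Nat.find_min' (hex g) ⟨W, hW, rfl⟩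
  choose W hWL hWc using hm
  have hLevh : ∀ (h : H) (g : G) (A : Finset V), Lev δ (φ g) A →
      Lev δ (φ (h * g)) (A.map (MulAction.toPerm h).toEmbedding) := by
    rintro h g A ⟨hne, c, hc, h1, h2⟩
    have h3 : ∀ v, v ∈ A.map (MulAction.toPerm h).toEmbedding ↔ h⁻¹ • v ∈ A := by
      intro v
      rw [Finset.mem_map]
      constructor
      · rintro ⟨a, ha, rfl⟩
        show h⁻¹ • (h • a) ∈ A
        rwa [inv_smul_smul]
      · intro hv
        exact ⟨_, hv, by show h • (h⁻¹ • v) = v; rw [smul_inv_smul]⟩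
    have h4 : ∀ v, φ (h * g) v = φ g (h⁻¹ • v) := by
      intro v
      have := hφeq h g (h⁻¹ • v)
      rwa [smul_inv_smul] at this
    refine ⟨by simpa using hne, c, hc, fun v => ?_, fun v hv => ?_⟩
    · rw [h3, h4, h1]
    · rw [h4]
      exact h2 _ ((h3 v).mp hv)
  have hWh : ∀ (h : H) (g : G), W (h * g) = (W g).map (MulAction.toPerm h).toEmbedding := by
    intro h g
    refine (hWL (h * g)).eq_of_card (hLevh h g _ (hWL g)) ?_
    rw [Finset.card_map, hWc, hWc]
    refine le_antisymm ?_ ?_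
    · have := hmmin (h * g) _ (hLevh h g _ (hWL g))
      rwa [Finset.card_map, hWc] at this
    · have h5 := hLevh h⁻¹ (h * g) _ (hWL (h * g))
      have h6 : ((h⁻¹ : H) : G) * (h * g) = g := by
        push_cast
        rw [inv_mul_cancel_left]
      rw [h6] at h5
      have := hmmin g _ h5
      rwa [Finset.card_map, hWc] at this
  have hWcard : ∀ g, (W g).card - 1 < N + 1 := by
    intro g
    have h1 := hdim _ (hφ g).2
    have h2 := Finset.card_le_card (hWL g).subset
    omega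
  -- separation
  have hsep : ∀ x y : G, x⁻¹ * y ∈ R → (W x).card = (W y).card → W x = W y := by
    intro x y hxy hcard
    refine (hWL x).eq_of_close (hWL y) hcard ?_
    obtain ⟨l, hl1, hl2, hl3⟩ := hRr _ hxy
    have h1 := displacement φ hφε l hl2 x
    rw [hl3, mul_inv_cancel_left] at h1
    refine h1.trans ?_
    have h2 : (l.length : ℝ) ≤ r + 1 := by
      have : l.length ≤ r + 1 := by omega
      exact_mod_cast this
    calc (l.length : ℝ) * (δ / (r + 1)) ≤ (r + 1) * (δ / (r + 1)) :=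
          mul_le_mul_of_nonneg_right h2 hεpos.le
      _ = δ := by field_simp
  -- stabilizers
  let bar : Finset V → (V →₀ ℝ) := fun A =>
    Finsupp.onFinset A (fun v => if v ∈ A then (A.card : ℝ)⁻¹ else 0)
      (fun v hv => by by_contra h; simp [h] at hv)
  have hbar : ∀ A v, bar A v = if v ∈ A then (A.card : ℝ)⁻¹ else 0 := fun A v => rfl
  have hbarK : ∀ g, IsPoint K (bar (W g)) := by
    intro g
    have hne : (W g).Nonempty := (hWL g).1
    have hcardpos : (0 : ℝ) < (W g).card := by exact_mod_cast hne.card_pos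
    have hbs : (bar (W g)).support = W g := by
      ext v
      rw [Finsupp.mem_support_iff, hbar]
      by_cases hv : v ∈ W g
      · simp only [hv, if_true, iff_true]
        exact (inv_pos.mpr hcardpos).ne'
      · simp [hv]
    refine ⟨⟨fun v => ?_, ?_⟩, by
      rw [hbs]; exact hK.down _ (hφ g).2 _ (hWL g).subset hne⟩
    · rw [hbar]
      split_ifs
      · positivity
      · exact le_rfl
    · show ∑ v ∈ (bar (W g)).support, bar (W g) v = 1
      rw [hbs]
      have : ∀ v ∈ W g, bar (W g) v = ((W g).card : ℝ)⁻¹ := fun v hv => by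
        rw [hbar, if_pos hv]
      rw [Finset.sum_congr rfl this, Finset.sum_const, nsmul_eq_mul]
      field_simp
  choose sec hsec using hπ
  let L : F → Subgroup G := fun j => isotropy H (bar (W (sec j)))
  have hL𝓕 : ∀ j, L j ∈ 𝓕 := fun j => hiso _ (hbarK _)
  have hLmem : ∀ (j : F) (h : H),
      (W (sec j)).map (MulAction.toPerm h).toEmbedding = W (sec j) → (h : G) ∈ L j := by
    intro j h hh
    refine ⟨h.2, fun v => ?_⟩
    have h3 : (⟨(h : G), h.2⟩ : H) = h := rfl
    rw [h3, hbar, hbar]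
    have h4 : h • v ∈ W (sec j) ↔ v ∈ W (sec j) := by
      conv_lhs => rw [← hh]
      rw [Finset.mem_map]
      constructor
      · rintro ⟨a, ha, hav⟩
        have : a = v := smul_left_cancel h hav
        rwa [← this]
      · intro hv
        exact ⟨v, hv, rfl⟩
    by_cases hv : v ∈ W (sec j)
    · rw [if_pos hv, if_pos (h4.mpr hv)]
    · rw [if_neg hv, if_neg (fun h' => hv (h4.mp h'))]
  -- representatives
  letI : Fintype F := Fintype.ofFinite F
  let Q : F → Finset G := fun j => Finset.univ.image fun c : F =>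
    if h : ∃ g, W g = W (sec j) ∧ π g = c then h.choose else 1
  have hQ : ∀ (j : F) (g : G), W g = W (sec j) → ∃ q ∈ Q j, g * q⁻¹ ∈ L j := by
    intro j g hg
    have h : ∃ g', W g' = W (sec j) ∧ π g' = π g := ⟨g, hg, rfl⟩
    refine ⟨h.choose, Finset.mem_image.mpr ⟨π g, Finset.mem_univ _, ?_⟩, ?_⟩
    · rw [dif_pos h]
    · obtain ⟨h1, h2⟩ := h.choose_spec
      have h3 : g * (h.choose)⁻¹ ∈ H := by
        rw [hmem, map_mul, map_inv, h2, mul_inv_cancel]
      refine hLmem j ⟨_, h3⟩ ?_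
      have h4 := hWh ⟨_, h3⟩ h.choose
      have h5 : ((⟨g * (h.choose)⁻¹, h3⟩ : H) : G) * h.choose = g := by
        show g * (h.choose)⁻¹ * h.choose = g
        rw [inv_mul_cancel_right]
      rw [h5, h1, hg] at h4
      exact h4.symm
  choose c lab B hB using fun j : F => label_cosets (L j) (h𝓕k _ (hL𝓕 j)) (Q j) R
  -- orbit representatives
  have horb : ∀ A : Finset V, (∃ g, W g = A) → ∃ (j : F) (h : H),
      (W (sec j)).map (MulAction.toPerm h).toEmbedding = A := by
    rintro A ⟨g, rfl⟩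
    have h1 : g * (sec (π g))⁻¹ ∈ H := by
      rw [hmem, map_mul, map_inv, hsec, mul_inv_cancel]
    refine ⟨π g, ⟨_, h1⟩, ?_⟩
    have h2 := hWh ⟨_, h1⟩ (sec (π g))
    rw [← h2]
    congr 1
    show g * (sec (π g))⁻¹ * sec (π g) = g
    rw [inv_mul_cancel_right]
  let J : Finset V → F := fun A =>
    if h : ∃ (j : F) (h : H), (W (sec j)).map (MulAction.toPerm h).toEmbedding = A
    then h.choose else 1
  let a : Finset V → H := fun A =>
    if h : ∃ h : H, (W (sec (J A))).map (MulAction.toPerm h).toEmbedding = A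
    then h.choose else 1
  have ha : ∀ g, (W (sec (J (W g)))).map (MulAction.toPerm (a (W g))).toEmbedding = W g := by
    intro g
    have h1 := horb (W g) ⟨g, rfl⟩
    have h2 : J (W g) = h1.choose := by
      show (if h : ∃ (j : F) (h : H),
        (W (sec j)).map (MulAction.toPerm h).toEmbedding = W g then h.choose else 1) = _
      rw [dif_pos h1]
    have h3 : ∃ h : H, (W (sec (J (W g)))).map (MulAction.toPerm h).toEmbedding = W g := by
      rw [h2]
      exact h1.choose_spec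
    have h4 : a (W g) = h3.choose := by
      show (if h : ∃ h : H, (W (sec (J (W g)))).map (MulAction.toPerm h).toEmbedding = W g
        then h.choose else 1) = _
      rw [dif_pos h3]
    rw [h4]
    exact h3.choose_spec
  have ha2 : ∀ g, W (((a (W g))⁻¹ : H) * g) = W (sec (J (W g))) := by
    intro g
    rw [hWh]
    exact map_toPerm_inv (a (W g)) _ _ (ha g)
  refine ⟨Finset V × Set G, Fin (N + 1) × Fin (k + 1), inferInstance, ?_,
    fun g => (⟨(W g).card - 1, hWcard g⟩, c (J (W g)) (((a (W g))⁻¹ : H) * g)),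
    fun g => (W g, lab (J (W g)) (((a (W g))⁻¹ : H) * g)),
    Finset.univ.biUnion B, fun x y hxy => ⟨fun hl => ?_, fun hR => ?_⟩⟩
  · rw [Fintype.card_prod, Fintype.card_fin, Fintype.card_fin]
    have : 0 < (N + 1) * (k + 1) := by positivity
    omega
  · have hW : W x = W y := congrArg Prod.fst hl
    have hc : c (J (W x)) (((a (W x))⁻¹ : H) * x) = c (J (W y)) (((a (W y))⁻¹ : H) * y) :=
      congrArg Prod.snd hxy
    have hlab : lab (J (W x)) (((a (W x))⁻¹ : H) * x) = lab (J (W y)) (((a (W y))⁻¹ : H) * y) :=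
      congrArg Prod.snd hl
    have hx := hQ (J (W x)) _ (ha2 x)
    have hy := hQ (J (W y)) _ (ha2 y)
    rw [← hW] at hc hlab hy
    have h1 := (hB (J (W x)) _ _ hx hy hc).1 hlab
    have h2 : (((a (W x))⁻¹ : H) * x : G)⁻¹ * (((a (W x))⁻¹ : H) * y) = x⁻¹ * y := by group
    rw [h2] at h1
    exact Finset.mem_biUnion.mpr ⟨_, Finset.mem_univ _, h1⟩
  · have hcard : (W x).card = (W y).card := by
      have h1 : (W x).card - 1 = (W y).card - 1 := congrArg (fun p => p.1.1) hxy
      have h2 := (hWL x).1.card_pos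
      have h3 := (hWL y).1.card_pos
      omega
    have hW : W x = W y := hsep x y hR hcard
    have hc : c (J (W x)) (((a (W x))⁻¹ : H) * x) = c (J (W y)) (((a (W y))⁻¹ : H) * y) :=
      congrArg Prod.snd hxy
    have hx := hQ (J (W x)) _ (ha2 x)
    have hy := hQ (J (W y)) _ (ha2 y)
    have h2 : (((a (W x))⁻¹ : H) * x : G)⁻¹ * (((a (W x))⁻¹ : H) * y) = x⁻¹ * y := by group
    refine Prod.ext hW ?_
    show lab (J (W x)) (((a (W x))⁻¹ : H) * x) = lab (J (W y)) (((a (W y))⁻¹ : H) * y)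
    rw [← hW] at hc hy ⊢
    refine (hB (J (W x)) _ _ hx hy hc).2 ?_
    rw [h2]
    exact hR

end Pool.Agent.Helper54.DFH
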