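import Pool.Agent.Helper54.DFH.Asdim

/-! Virtually cyclic groups have asymptotic dimension at most one. -/

namespace Pool.Agent.Helper54.DFH

universe u v w

theorem asdim_zpowers {G : Type u} [Group G] (z : G) : AsdimLE (Subgroup.zpowers z) 1 := by
  classical
  set ζ : Subgroup.zpowers z := ⟨z, Subgroup.mem_zpowers z⟩ with hζ
  have hsurj : ∀ x : Subgroup.zpowers z, ∃ n : ℤ, ζ ^ n = x := by
    rintro ⟨x, hx⟩
    obtain ⟨n, rfl⟩ := Subgroup.mem_zpowers_iff.mp hx
    exact ⟨n, rfl⟩
  by_cases hfin : Finite (Subgroup.zpowers z)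
  · letI := Fintype.ofFinite (Subgroup.zpowers z)
    intro R
    refine ⟨fun _ => {Set.univ}, Finset.univ, fun g => ⟨0, Set.univ, rfl, trivial⟩, ?_, ?_⟩
    · intro i U _ x _ y _
      exact Finset.mem_univ _
    · rintro i U hU W hW hne
      exact absurd (hU.trans hW.symm) hne
  · -- infinite order
    have hinj : Function.Injective fun n : ℤ => ζ ^ n := by
      rw [injective_zpow_iff_not_isOfFinOrder]
      intro h
      apply hfin
      have h1 : IsOfFinOrder z := by
        rw [isOfFinOrder_iff_pow_eq_one] at h ⊢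
        obtain ⟨n, hn, hn1⟩ := h
        exact ⟨n, hn, by simpa using congrArg Subtype.val hn1⟩
      exact Set.finite_coe_iff.mpr (finite_zpowers.mpr h1)
    choose e he using hsurj
    refine asdim_of_label.{u, 0} fun R => ?_
    set r : ℕ := ∑ t ∈ R, (e t).natAbs with hr
    have hR : ∀ t ∈ R, (e t).natAbs ≤ r := fun t ht =>
      Finset.single_le_sum (f := fun t => (e t).natAbs) (fun _ _ => Nat.zero_le _) ht
    have hdiff : ∀ x y : Subgroup.zpowers z, e (x⁻¹ * y) = e y - e x := by
      intro x y
      apply hinj
      show ζ ^ e (x⁻¹ * y) = ζ ^ (e y - e x)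
      rw [he, sub_eq_neg_add, zpow_add, zpow_neg, he, he]
    refine ⟨ℤ, Fin 2, inferInstance, by simp, fun x =>
      if Even (e x / (r + 1 : ℤ)) then 0 else 1, fun x => e x / (r + 1 : ℤ),
      (Finset.Icc (-(r : ℤ)) r).image fun n => ζ ^ n, fun x y hxy => ⟨fun hl => ?_, fun hR' => ?_⟩⟩
    · refine Finset.mem_image.mpr ⟨e (x⁻¹ * y), ?_, he _⟩
      rw [hdiff, Finset.mem_Icc]
      have hpos : (0 : ℤ) < r + 1 := by positivity
      have h1 := Int.emod_nonneg (e x) hpos.ne'
      have h2 := Int.emod_lt_of_pos (e x) hpos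
      have h3 := Int.emod_nonneg (e y) hpos.ne'
      have h4 := Int.emod_lt_of_pos (e y) hpos
      have h5 := Int.emod_add_mul_ediv (e x) (r + 1)
      have h6 := Int.emod_add_mul_ediv (e y) (r + 1)
      have h7 : e x / (r + 1 : ℤ) = e y / (r + 1 : ℤ) := hl
      rw [h7] at h5
      constructor <;> omega
    · have h0 := hR _ hR'
      rw [hdiff] at h0
      have hpos : (0 : ℤ) < r + 1 := by positivity
      have hpar : Even (e x / (r + 1 : ℤ)) ↔ Even (e y / (r + 1 : ℤ)) := by
        constructor
        · intro h
          by_contra h'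
          simp only [if_pos h, if_neg h'] at hxy
          exact absurd hxy (by decide)
        · intro h
          by_contra h'
          simp only [if_neg h', if_pos h] at hxy
          exact absurd hxy (by decide)
      have h1 := Int.emod_nonneg (e x) hpos.ne'
      have h2 := Int.emod_lt_of_pos (e x) hpos
      have h3 := Int.emod_nonneg (e y) hpos.ne'
      have h4 := Int.emod_lt_of_pos (e y) hpos
      have h5 := Int.emod_add_mul_ediv (e x) (r + 1)
      have h6 := Int.emod_add_mul_ediv (e y) (r + 1)
      set A := e x / (r + 1 : ℤ) with hA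
      set B := e y / (r + 1 : ℤ) with hB
      have habs : |e y - e x| ≤ r := by
        rw [Int.abs_eq_natAbs]
        exact_mod_cast h0
      rw [abs_le] at habs
      show A = B
      by_contra hne
      have h9 : A ≤ B - 2 ∨ B + 2 ≤ A := by
        rcases lt_or_gt_of_ne hne with h | h
        · left
          by_contra hc
          have : B = A + 1 := by omega
          rw [this] at hpar
          have := Int.even_add_one (n := A)
          tauto
        · right
          by_contra hc
          have : A = B + 1 := by omega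
          rw [this] at hpar
          have := Int.even_add_one (n := B)
          tauto
      rcases h9 with h | h
      · nlinarith [habs.1, habs.2]
      · nlinarith [habs.1, habs.2]

/-- Groups with a cyclic subgroup of finite index have asymptotic dimension at most one. -/
theorem asdim_vcyc {G : Type u} [Group G] (z : G) (hz : (Subgroup.zpowers z).FiniteIndex) :
    AsdimLE G 1 := by
  classical
  refine asdim_of_label.{u, u} fun R => ?_
  letI : Fintype (G ⧸ Subgroup.zpowers z) :=
    (Subgroup.zpowers z).fintypeQuotientOfFiniteIndex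
  let Q : Finset G := Finset.univ.image fun c : G ⧸ Subgroup.zpowers z => (c.out)⁻¹
  obtain ⟨c, lab, B, hB⟩ := label_cosets (Subgroup.zpowers z) (asdim_zpowers z) Q R
  have hQ : ∀ x : G, ∃ q ∈ Q, x * q⁻¹ ∈ Subgroup.zpowers z := by
    intro x
    refine ⟨_, Finset.mem_image.mpr ⟨((x⁻¹ : G) : G ⧸ Subgroup.zpowers z), Finset.mem_univ _,
      rfl⟩, ?_⟩
    rw [inv_inv]
    have h1 : (((((x⁻¹ : G) : G ⧸ Subgroup.zpowers z).out : G)) : G ⧸ Subgroup.zpowers z)
        = ((x⁻¹ : G) : G ⧸ Subgroup.zpowers z) := QuotientGroup.out_eq' _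
    rw [QuotientGroup.eq] at h1
    have h2 := Subgroup.inv_mem _ h1
    rwa [mul_inv_rev, inv_inv, inv_inv] at h2
  exact ⟨Set G, Fin 2, inferInstance, by simp, c, lab, B, fun x y hxy => hB x y (hQ x) (hQ y) hxy⟩

end Pool.Agent.Helper54.DFH
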