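import Pool.Agent.Helper54.DFH.Defs

/-! Asymptotic dimension of a group. -/

namespace Pool.Agent.Helper54.DFH

universe u

/-- The asymptotic dimension of the group `G` is at most `n`: for every finite `R ⊆ G` there
are families `𝒰 0, …, 𝒰 n` of subsets of `G` which together cover `G`, are uniformly bounded
(there is a finite `B ⊆ G` with `x⁻¹ y ∈ B` whenever `x, y` lie in the same member) and
`R`-separated (`x⁻¹ y ∉ R` whenever `x, y` lie in different members of the same family). -/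
def AsdimLE (G : Type u) [Group G] (n : ℕ) : Prop :=
  ∀ R : Finset G, ∃ (𝒰 : Fin (n + 1) → Set (Set G)) (B : Finset G),
    (∀ g, ∃ i, ∃ U ∈ 𝒰 i, g ∈ U) ∧
    (∀ i, ∀ U ∈ 𝒰 i, ∀ x ∈ U, ∀ y ∈ U, x⁻¹ * y ∈ B) ∧
    (∀ i, ∀ U ∈ 𝒰 i, ∀ W ∈ 𝒰 i, U ≠ W → ∀ x ∈ U, ∀ y ∈ W, x⁻¹ * y ∉ R)

end Pool.Agent.Helper54.DFH
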