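import Pool.Agent.Helper54.DFH.Defs

/-! Basic facts on the `ℓ¹`-norm of finitely supported functions and on amenable actions. -/

namespace Pool.Agent.Helper54.DFH

open Finsupp

universe u v w

section nrm

variable {X : Type v} {Y : Type w}

theorem nrm_eq_sum {x : X →₀ ℝ} {s : Finset X} (hs : x.support ⊆ s) :
    nrm x = ∑ v ∈ s, |x v| := by
  unfold nrm
  exact Finsupp.sum_of_support_subset x hs _ (by simp)

theorem nrm_nonneg (x : X →₀ ℝ) : 0 ≤ nrm x :=
  Finset.sum_nonneg fun _ _ => abs_nonneg _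

@[simp] theorem nrm_zero : nrm (0 : X →₀ ℝ) = 0 := by simp [nrm]

theorem nrm_single (a : X) (r : ℝ) : nrm (single a r) = |r| := by
  simp [nrm]

theorem nrm_add_le (x y : X →₀ ℝ) : nrm (x + y) ≤ nrm x + nrm y := by
  classical
  rw [nrm_eq_sum (s := x.support ∪ y.support) Finsupp.support_add,
    nrm_eq_sum (x := x) (s := x.support ∪ y.support) Finset.subset_union_left,
    nrm_eq_sum (x := y) (s := x.support ∪ y.support) Finset.subset_union_right,
    ← Finset.sum_add_distrib]
  exact Finset.sum_le_sum fun v _ => abs_add_le _ _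

theorem nrm_smul (c : ℝ) (x : X →₀ ℝ) : nrm (c • x) = |c| * nrm x := by
  rw [nrm_eq_sum (s := x.support) Finsupp.support_smul,
    nrm_eq_sum (x := x) (s := x.support) (Finset.Subset.refl _), Finset.mul_sum]
  exact Finset.sum_congr rfl fun v _ => by simp [abs_mul]

theorem nrm_neg (x : X →₀ ℝ) : nrm (-x) = nrm x := by
  have := nrm_smul (-1) x
  simpa using this

theorem nrm_sub_comm (x y : X →₀ ℝ) : nrm (x - y) = nrm (y - x) := by
  rw [← nrm_neg, neg_sub]

theorem nrm_sub_le_add (x y z : X →₀ ℝ) : nrm (x - z) ≤ nrm (x - y) + nrm (y - z) := by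
  have := nrm_add_le (x - y) (y - z)
  simpa using this

theorem nrm_sum_le {ι : Type*} (s : Finset ι) (f : ι → (X →₀ ℝ)) :
    nrm (∑ i ∈ s, f i) ≤ ∑ i ∈ s, nrm (f i) := by
  classical
  induction s using Finset.induction_on with
  | empty => simp
  | insert a s ha ih =>
    rw [Finset.sum_insert ha, Finset.sum_insert ha]
    exact (nrm_add_le _ _).trans (by linarith)

theorem nrm_of_nonneg {x : X →₀ ℝ} (hx : ∀ v, 0 ≤ x v) : nrm x = x.sum fun _ r => r := by
  unfold nrm Finsupp.sum
  exact Finset.sum_congr rfl fun v _ => abs_of_nonneg (hx v)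

theorem IsProb.nrm_eq {x : X →₀ ℝ} (hx : IsProb x) : nrm x = 1 := by
  rw [nrm_of_nonneg hx.1, hx.2]

theorem IsProb.support_nonempty {x : X →₀ ℝ} (hx : IsProb x) : x.support.Nonempty := by
  rw [Finset.nonempty_iff_ne_empty]
  intro h
  have h0 : x = 0 := Finsupp.support_eq_empty.mp h
  have := hx.2
  rw [h0] at this
  simp at this

theorem isProb_single (a : X) : IsProb (single a (1 : ℝ)) := by
  classical
  refine ⟨fun v => ?_, by simp⟩
  rw [Finsupp.single_apply]
  split_ifs <;> norm_num

/-- Barycentric combinations: norm estimate. -/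
theorem nrm_lc_le (W : X → (Y →₀ ℝ)) (z : X →₀ ℝ) (C : ℝ)
    (hW : ∀ x ∈ z.support, nrm (W x) ≤ C) :
    nrm (Finsupp.linearCombination ℝ W z) ≤ C * nrm z := by
  rw [Finsupp.linearCombination_apply, Finsupp.sum]
  refine (nrm_sum_le _ _).trans ?_
  rw [nrm_eq_sum (x := z) (s := z.support) (Finset.Subset.refl _), Finset.mul_sum]
  refine Finset.sum_le_sum fun x hx => ?_
  rw [nrm_smul, mul_comm]
  exact mul_le_mul_of_nonneg_right (hW x hx) (abs_nonneg _)

/-- The total mass, as a linear map. -/
noncomputable def tot : (X →₀ ℝ) →ₗ[ℝ] ℝ := Finsupp.linearCombination ℝ (fun _ => (1 : ℝ))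

theorem tot_apply (x : X →₀ ℝ) : tot x = x.sum fun _ r => r := by
  simp [tot, Finsupp.linearCombination_apply]

theorem isProb_lc {W : X → (Y →₀ ℝ)} {z : X →₀ ℝ} (hz : IsProb z)
    (hW : ∀ x ∈ z.support, IsProb (W x)) : IsProb (Finsupp.linearCombination ℝ W z) := by
  constructor
  · intro v
    rw [Finsupp.linearCombination_apply, Finsupp.sum, Finsupp.finset_sum_apply]
    refine Finset.sum_nonneg fun x hx => ?_
    rw [Finsupp.smul_apply, smul_eq_mul]
    exact mul_nonneg (hz.1 x) ((hW x hx).1 v)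
  · rw [← tot_apply, Finsupp.linearCombination_apply, Finsupp.sum, map_sum]
    have : ∀ x ∈ z.support, tot (z x • W x) = z x := by
      intro x hx
      rw [map_smul, tot_apply, (hW x hx).2, smul_eq_mul, mul_one]
    rw [Finset.sum_congr rfl this]
    exact hz.2

theorem mapDomain_eq_lc (f : X → Y) (z : X →₀ ℝ) :
    z.mapDomain f = Finsupp.linearCombination ℝ (fun x => single (f x) (1 : ℝ)) z := by
  rw [Finsupp.linearCombination_apply, Finsupp.mapDomain]
  refine Finsupp.sum_congr fun x _ => ?_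
  simp

theorem nrm_mapDomain_le (f : X → Y) (z : X →₀ ℝ) : nrm (z.mapDomain f) ≤ nrm z := by
  rw [mapDomain_eq_lc]
  have := nrm_lc_le (fun x => single (f x) (1 : ℝ)) z 1 (fun x _ => by rw [nrm_single]; norm_num)
  simpa using this

theorem isProb_mapDomain (f : X → Y) {z : X →₀ ℝ} (hz : IsProb z) :
    IsProb (z.mapDomain f) := by
  rw [mapDomain_eq_lc]
  exact isProb_lc hz fun x _ => isProb_single _

theorem mapDomain_sub (f : X → Y) (x y : X →₀ ℝ) :
    (x - y).mapDomain f = x.mapDomain f - y.mapDomain f := by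
  rw [mapDomain_eq_lc, mapDomain_eq_lc, mapDomain_eq_lc, map_sub]

theorem lc_mapDomain {Z : Type*} (W : Y → (Z →₀ ℝ)) (f : X → Y) (z : X →₀ ℝ) :
    Finsupp.linearCombination ℝ W (z.mapDomain f)
      = Finsupp.linearCombination ℝ (fun x => W (f x)) z := by
  rw [Finsupp.linearCombination_mapDomain]
  rfl

theorem mapDomain_lc {Z : Type*} (W : X → (Y →₀ ℝ)) (f : Y → Z) (z : X →₀ ℝ) :
    (Finsupp.linearCombination ℝ W z).mapDomain f
      = Finsupp.linearCombination ℝ (fun x => (W x).mapDomain f) z := by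
  rw [Finsupp.linearCombination_apply, Finsupp.linearCombination_apply, Finsupp.sum,
    Finsupp.sum, Finsupp.mapDomain_finset_sum]
  exact Finset.sum_congr rfl fun x _ => by rw [Finsupp.mapDomain_smul]

theorem lc_sub {W W' : X → (Y →₀ ℝ)} (z : X →₀ ℝ) :
    Finsupp.linearCombination ℝ W z - Finsupp.linearCombination ℝ W' z
      = Finsupp.linearCombination ℝ (fun x => W x - W' x) z := by
  rw [Finsupp.linearCombination_apply, Finsupp.linearCombination_apply,
    Finsupp.linearCombination_apply, ← Finsupp.sum_sub]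
  exact Finsupp.sum_congr fun x _ => by rw [smul_sub]

end nrm

/-- Almost invariance under generators gives almost invariance under every element. -/
theorem almost_inv_of_gen {G : Type u} [Group G] {X : Type v} [MulAction G X] {S : Set G}
    (hsymm : ∀ s ∈ S, s⁻¹ ∈ S) (hgen : Subgroup.closure S = ⊤) (t : G) :
    ∃ n : ℕ, ∀ (f : X →₀ ℝ) (δ : ℝ), 0 ≤ δ →
      (∀ s ∈ S, nrm (f.mapDomain (fun x => s • x) - f) ≤ δ) →
      nrm (f.mapDomain (fun x => t • x) - f) ≤ n * δ := by
  have ht : t ∈ Subgroup.closure S := by rw [hgen]; trivial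
  have key : ∀ (a b : G) (f : X →₀ ℝ),
      nrm (f.mapDomain (fun x => (a * b) • x) - f)
        ≤ nrm (f.mapDomain (fun x => a • x) - f) + nrm (f.mapDomain (fun x => b • x) - f) := by
    intro a b f
    have h1 : f.mapDomain (fun x => (a * b) • x)
        = (f.mapDomain (fun x => b • x)).mapDomain (fun x => a • x) := by
      rw [← Finsupp.mapDomain_comp]
      congr 1
      funext x
      simp [mul_smul]
    have h2 := nrm_sub_le_add (f.mapDomain (fun x => (a * b) • x))
      (f.mapDomain (fun x => a • x)) f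
    rw [h1, ← mapDomain_sub] at h2
    rw [h1]
    have h3 := nrm_mapDomain_le (fun x => a • x) (f.mapDomain (fun x => b • x) - f)
    linarith
  induction ht using Subgroup.closure_induction with
  | mem s hs =>
    refine ⟨1, fun f δ _ h => ?_⟩
    simpa using h s hs
  | one =>
    refine ⟨0, fun f δ _ _ => ?_⟩
    have : (fun x : X => (1 : G) • x) = id := by funext x; simp
    rw [this, Finsupp.mapDomain_id]
    simp
  | mul a b _ _ iha ihb =>
    obtain ⟨n, hn⟩ := iha
    obtain ⟨m, hm⟩ := ihb
    refine ⟨n + m, fun f δ hδ h => ?_⟩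
    have h1 := hn f δ hδ h
    have h2 := hm f δ hδ h
    have h3 := key a b f
    push_cast
    linarith
  | inv a _ iha =>
    obtain ⟨n, hn⟩ := iha
    refine ⟨n, fun f δ hδ h => ?_⟩
    have h1 := hn f δ hδ h
    have h2 : f.mapDomain (fun x => a⁻¹ • x) - f
        = -((f.mapDomain (fun x => a • x) - f).mapDomain (fun x => a⁻¹ • x)) := by
      rw [mapDomain_sub, ← Finsupp.mapDomain_comp]
      have : (fun x : X => a⁻¹ • x) ∘ (fun x : X => a • x) = id := by
        funext x; simp
      rw [this, Finsupp.mapDomain_id]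
      abel
    rw [h2, nrm_neg]
    exact (nrm_mapDomain_le _ _).trans h1

/-- Reiter's condition only has to be checked on a finite symmetric generating set. -/
theorem amenableAction_of_gen {G : Type u} [Group G] {X : Type v} [MulAction G X] {S : Set G}
    (hsymm : ∀ s ∈ S, s⁻¹ ∈ S) (hgen : Subgroup.closure S = ⊤)
    (h : ∀ δ : ℝ, 0 < δ → ∃ f : X →₀ ℝ, IsProb f ∧
      ∀ s ∈ S, nrm (f.mapDomain (fun x => s • x) - f) ≤ δ) :
    AmenableAction G X := by
  classical
  intro T ε hε
  choose n hn using fun t : G => almost_inv_of_gen (X := X) hsymm hgen t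
  set M : ℕ := (∑ t ∈ T, n t) + 1 with hM
  have hMpos : (0 : ℝ) < M := by positivity
  obtain ⟨f, hf, hfS⟩ := h (ε / M) (by positivity)
  refine ⟨f, hf, fun t ht => ?_⟩
  refine (hn t f (ε / M) (by positivity) hfS).trans ?_
  have h1 : n t ≤ M := by
    have := Finset.single_le_sum (f := n) (fun i _ => Nat.zero_le _) ht
    omega
  have h2 : (n t : ℝ) ≤ M := by exact_mod_cast h1
  calc (n t : ℝ) * (ε / M) ≤ M * (ε / M) :=
        mul_le_mul_of_nonneg_right h2 (by positivity)
    _ = ε := by field_simp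

end Pool.Agent.Helper54.DFH
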