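import Mathlib

/-!
Definitions for the Dress-Farrell-Hsiang criterion of problem MP_59dd5b_al, and for amenable
actions (Reiter condition).
-/

namespace Pool.Agent.Helper54.DFH

open Finsupp

universe u v

/-- A family of subgroups: nonempty, closed under conjugation and under passing to subgroups. -/
structure IsFamily {G : Type u} [Group G] (𝓕 : Set (Subgroup G)) : Prop where
  nonempty : 𝓕.Nonempty
  conj : ∀ H ∈ 𝓕, ∀ g : G, H.map (MulAut.conj g).toMonoidHom ∈ 𝓕
  sub : ∀ H ∈ 𝓕, ∀ K : Subgroup G, K ≤ H → K ∈ 𝓕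

/-- A Dress group: a finite group `D` with normal subgroups `P ⊴ C ⊴ D` such that, for some
primes `p, q`, `P` is a `p`-group, `C / P` is cyclic and `D / C` is a `q`-group. -/
def IsDress (D : Type v) [Group D] : Prop :=
  Finite D ∧ ∃ p q : ℕ, p.Prime ∧ q.Prime ∧ ∃ (C : Subgroup D) (_ : C.Normal)
    (P : Subgroup C) (_ : P.Normal), IsPGroup p P ∧ IsCyclic (C ⧸ P) ∧ IsPGroup q (D ⧸ C)

/-- The `ℓ¹`-norm of a finitely supported real function. -/
noncomputable def nrm {X : Type v} (x : X →₀ ℝ) : ℝ := x.sum fun _ r => |r|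

/-- Finitely supported probability measures. -/
def IsProb {X : Type v} (x : X →₀ ℝ) : Prop :=
  (∀ v, 0 ≤ x v) ∧ (x.sum fun _ r => r) = 1

/-- An abstract simplicial complex with vertices in `V`, given by its set of simplices. -/
structure IsComplex {V : Type v} (K : Set (Finset V)) : Prop where
  nonempty : ∀ s ∈ K, s.Nonempty
  down : ∀ s ∈ K, ∀ t ⊆ s, t.Nonempty → t ∈ K

/-- A point of the geometric realization of `K`, given by its barycentric coordinates. -/
def IsPoint {V : Type v} (K : Set (Finset V)) (x : V →₀ ℝ) : Prop :=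
  IsProb x ∧ x.support ∈ K

/-- The isotropy group in `G` of a point `x` for an action of the subgroup `H ≤ G`. -/
def isotropy {G : Type u} [Group G] (H : Subgroup G) {V : Type v} [MulAction H V]
    (x : V →₀ ℝ) : Subgroup G where
  carrier := {g | ∃ hg : g ∈ H, ∀ w : V, x ((⟨g, hg⟩ : H) • w) = x w}
  one_mem' := ⟨H.one_mem, fun w => by
    have : (⟨1, H.one_mem⟩ : H) = 1 := rfl
    rw [this, one_smul]⟩
  mul_mem' := by
    rintro a b ⟨ha, ha'⟩ ⟨hb, hb'⟩
    refine ⟨H.mul_mem ha hb, fun w => ?_⟩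
    have : (⟨a * b, H.mul_mem ha hb⟩ : H) = ⟨a, ha⟩ * ⟨b, hb⟩ := rfl
    rw [this, mul_smul, ha', hb']
  inv_mem' := by
    rintro a ⟨ha, ha'⟩
    refine ⟨H.inv_mem ha, fun w => ?_⟩
    have : (⟨a⁻¹, H.inv_mem ha⟩ : H) = (⟨a, ha⟩ : H)⁻¹ := rfl
    rw [this, ← ha' ((⟨a, ha⟩ : H)⁻¹ • w), smul_inv_smul]

/-- There are an `H`-simplicial complex of dimension at most `N` with isotropy in `𝓕` and an
`H`-equivariant map `φ` from `G` to its realization such that
`d(φ(g), φ(g')) ≤ ε` whenever `g⁻¹ g' ∈ S`. -/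
def HasContraction {G : Type u} [Group G] (S : Set G) (𝓕 : Set (Subgroup G)) (N : ℕ) (ε : ℝ)
    (H : Subgroup G) : Prop :=
  ∃ (V : Type v) (_ : MulAction H V) (K : Set (Finset V)),
    IsComplex K ∧ (∀ s ∈ K, s.card ≤ N + 1) ∧
    (∀ h : H, ∀ s ∈ K, s.map (MulAction.toPerm h).toEmbedding ∈ K) ∧
    (∀ x : V →₀ ℝ, IsPoint K x → isotropy H x ∈ 𝓕) ∧
    ∃ φ : G → (V →₀ ℝ), (∀ g, IsPoint K (φ g)) ∧
      (∀ (h : H) (g : G) (w : V), φ (h * g) (h • w) = φ g w) ∧
      ∀ g g' : G, g⁻¹ * g' ∈ S → nrm (φ g - φ g') ≤ ε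

/-- The hypothesis of the criterion in the problem (What is known) for the group `G`, the
generating set `S` and the family `𝓕`, with the bound `N` for the dimensions. -/
def CriterionDim {G : Type u} [Group G] (S : Set G) (𝓕 : Set (Subgroup G)) (N : ℕ) : Prop :=
  ∀ ε : ℝ, 0 < ε → ∃ (F : Type) (_ : Group F) (_ : Finite F) (π : G →* F),
    Function.Surjective π ∧ ∀ D : Subgroup F, IsDress D →
      HasContraction.{u, v} S 𝓕 N ε (D.comap π)

/-- The hypothesis of the criterion in the problem (What is known) for the group `G`, the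
generating set `S` and the family `𝓕`. -/
def Criterion {G : Type u} [Group G] (S : Set G) (𝓕 : Set (Subgroup G)) : Prop :=
  ∃ N : ℕ, CriterionDim.{u, v} S 𝓕 N

/-- Reiter condition for an action of `G` on a set `X`: for every finite `T ⊆ G` and `ε > 0`
there is a finitely supported probability measure on `X` which every `t ∈ T` moves by at most
`ε` in the `ℓ¹`-norm. The group `G` is amenable if its action on itself by left
multiplication has this property. -/
def AmenableAction (G : Type u) [Group G] (X : Type v) [MulAction G X] : Prop :=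
  ∀ (T : Finset G) (ε : ℝ), 0 < ε → ∃ f : X →₀ ℝ, IsProb f ∧
    ∀ t ∈ T, nrm (f.mapDomain (fun x => t • x) - f) ≤ ε

/-- The family of virtually cyclic subgroups: those with a cyclic subgroup of finite index. -/
def VCyc (G : Type u) [Group G] : Set (Subgroup G) :=
  {H | ∃ z : H, (Subgroup.zpowers z).FiniteIndex}

end Pool.Agent.Helper54.DFH
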