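import Pool.Agent.Helper54.DFH.Gp

/-! Amenable groups (in the sense of Reiter) contain no free group of rank two. -/

namespace Pool.Agent.Helper54.DFH

open Finsupp

universe u v w

theorem head_or (i : Fin 2) (x : FreeGroup (Fin 2)) :
    x.toWord.head? = some (i, false) ∨ (FreeGroup.of i * x).toWord.head? = some (i, true) := by
  have h : (FreeGroup.of i * x).toWord = FreeGroup.reduce ((i, true) :: x.toWord) := by
    rw [FreeGroup.toWord_mul, FreeGroup.toWord_of]
    rfl
  rw [h, FreeGroup.reduce.cons, FreeGroup.reduce_toWord]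
  rcases hw : x.toWord with _ | ⟨hd, tl⟩
  · right; rfl
  · by_cases hc : i = hd.1 ∧ true = !hd.2
    · left
      obtain ⟨a, b⟩ := hd
      simp at hc
      obtain ⟨rfl, rfl⟩ := hc
      rfl
    · right
      simp only [hc, if_false]
      rfl

/-- The mass of a set. -/
noncomputable def mass {X : Type v} (A : Set X) : (X →₀ ℝ) →ₗ[ℝ] ℝ :=
  Finsupp.linearCombination ℝ (A.indicator fun _ => (1 : ℝ))

theorem mass_apply {X : Type v} (A : Set X) (f : X →₀ ℝ) :
    mass A f = ∑ x ∈ f.support, f x * A.indicator (fun _ => (1 : ℝ)) x := by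
  simp [mass, Finsupp.linearCombination_apply, Finsupp.sum]

theorem abs_mass_le {X : Type v} (A : Set X) (f : X →₀ ℝ) : |mass A f| ≤ nrm f := by
  rw [mass_apply, nrm_eq_sum (Finset.Subset.refl _)]
  refine (Finset.abs_sum_le_sum_abs _ _).trans (Finset.sum_le_sum fun x _ => ?_)
  rw [abs_mul]
  have : |A.indicator (fun _ => (1 : ℝ)) x| ≤ 1 := by
    by_cases hx : x ∈ A
    · simp [hx]
    · simp [hx]
  calc |f x| * |A.indicator (fun _ => (1 : ℝ)) x| ≤ |f x| * 1 :=
        mul_le_mul_of_nonneg_left this (abs_nonneg _)
    _ = |f x| := mul_one _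

theorem mass_mapDomain {X : Type v} {Y : Type w} (g : X → Y) (A : Set Y) (f : X →₀ ℝ) :
    mass A (f.mapDomain g) = mass (g ⁻¹' A) f := by
  unfold mass
  rw [Finsupp.linearCombination_mapDomain]
  rfl

/-- An amenable group does not contain a free group of rank two. -/
theorem not_injective_of_amenable {G : Type u} [Group G] (hG : AmenableAction G G)
    (ρ : FreeGroup (Fin 2) →* G) : ¬ Function.Injective ρ := by
  classical
  intro hρ
  obtain ⟨f, hf, hfT⟩ := hG (Finset.univ.image fun i : Fin 2 => ρ (FreeGroup.of i)) (1 / 4)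
    (by norm_num)
  -- representatives of the right cosets
  let r : G → G := fun g => (Quotient.mk (QuotientGroup.rightRel ρ.range) g).out
  have hr : ∀ g, ∃ x : FreeGroup (Fin 2), g = ρ x * r g := by
    intro g
    have h1 : (QuotientGroup.rightRel ρ.range) (r g) g :=
      Quotient.mk_out (s := QuotientGroup.rightRel ρ.range) g
    rw [QuotientGroup.rightRel_apply] at h1
    obtain ⟨x, hx⟩ := h1
    exact ⟨x, by rw [hx]; group⟩
  have hrinv : ∀ (x : FreeGroup (Fin 2)) (g : G), r (ρ x * g) = r g := by
    intro x g
    have : Quotient.mk (QuotientGroup.rightRel ρ.range) (ρ x * g)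
        = Quotient.mk (QuotientGroup.rightRel ρ.range) g := by
      refine Quotient.sound ?_
      change (QuotientGroup.rightRel ρ.range) (ρ x * g) g
      rw [QuotientGroup.rightRel_apply]
      exact ⟨x⁻¹, by rw [map_inv]; group⟩
    show (Quotient.mk (QuotientGroup.rightRel ρ.range) (ρ x * g)).out
      = (Quotient.mk (QuotientGroup.rightRel ρ.range) g).out
    rw [this]
  choose c hc using hr
  have hcmul : ∀ (x : FreeGroup (Fin 2)) (g : G), c (ρ x * g) = x * c g := by
    intro x g
    have h1 := hc (ρ x * g)
    rw [hrinv] at h1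
    have h2 := hc g
    refine hρ ?_
    rw [map_mul]
    have h3 : ρ (c (ρ x * g)) * r g = ρ x * ρ (c g) * r g := by
      rw [← h1, mul_assoc, ← h2]
    exact mul_right_cancel h3
  let A : Fin 2 → Bool → Set G := fun i b => {g | (c g).toWord.head? = some (i, b)}
  have hmass : ∀ i b, 0 ≤ mass (A i b) f := by
    intro i b
    rw [mass_apply]
    refine Finset.sum_nonneg fun x _ => mul_nonneg (hf.1 x) ?_
    exact Set.indicator_nonneg (fun _ _ => zero_le_one) x
  have h1 : ∀ i, 3 / 4 ≤ mass (A i false) f + mass (A i true) f := by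
    intro i
    have h2 : 1 ≤ mass (A i false) f
        + mass (A i true) (f.mapDomain fun g => ρ (FreeGroup.of i) • g) := by
      rw [mass_mapDomain, mass_apply, mass_apply, ← Finset.sum_add_distrib]
      have h3 : (1 : ℝ) = ∑ x ∈ f.support, f x := hf.2.symm
      refine le_of_eq_of_le h3 (Finset.sum_le_sum fun x _ => ?_)
      rw [← mul_add]
      have h4 : 1 ≤ (A i false).indicator (fun _ => (1 : ℝ)) x
          + ((fun g => ρ (FreeGroup.of i) • g) ⁻¹' (A i true)).indicator (fun _ => (1 : ℝ)) x := by
        have h5 : x ∈ A i false ∨ x ∈ (fun g => ρ (FreeGroup.of i) • g) ⁻¹' (A i true) := by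
          rcases head_or i (c x) with h | h
          · left; exact h
          · right
            show (c (ρ (FreeGroup.of i) * x)).toWord.head? = some (i, true)
            rw [hcmul]
            exact h
        rcases h5 with h | h
        · rw [Set.indicator_of_mem h]
          have : (0 : ℝ) ≤ ((fun g => ρ (FreeGroup.of i) • g) ⁻¹' (A i true)).indicator
            (fun _ => (1 : ℝ)) x := Set.indicator_nonneg (fun _ _ => zero_le_one) x
          linarith
        · rw [Set.indicator_of_mem h]
          have : (0 : ℝ) ≤ (A i false).indicator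
            (fun _ => (1 : ℝ)) x := Set.indicator_nonneg (fun _ _ => zero_le_one) x
          linarith
      nlinarith [hf.1 x]
    have h6 : mass (A i true) (f.mapDomain fun g => ρ (FreeGroup.of i) • g)
        - mass (A i true) f ≤ 1 / 4 := by
      rw [← map_sub]
      refine (le_abs_self _).trans ((abs_mass_le _ _).trans (hfT _ ?_))
      exact Finset.mem_image_of_mem _ (Finset.mem_univ i)
    linarith
  have h7 : mass (A 0 false) f + mass (A 0 true) f + (mass (A 1 false) f + mass (A 1 true) f)
      ≤ 1 := by
    have h3 : ∑ x ∈ f.support, f x = (1 : ℝ) := hf.2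
    rw [mass_apply, mass_apply, mass_apply, mass_apply, ← Finset.sum_add_distrib,
      ← Finset.sum_add_distrib, ← Finset.sum_add_distrib]
    refine le_of_le_of_eq (Finset.sum_le_sum fun x _ => ?_) h3
    rw [← mul_add, ← mul_add, ← mul_add]
    have h8 : (A 0 false).indicator (fun _ => (1 : ℝ)) x + (A 0 true).indicator (fun _ => (1 : ℝ)) x
        + ((A 1 false).indicator (fun _ => (1 : ℝ)) x
        + (A 1 true).indicator (fun _ => (1 : ℝ)) x) ≤ 1 := by
      simp only [Set.indicator_apply]
      show (if (c x).toWord.head? = some (0, false) then (1 : ℝ) else 0)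
        + (if (c x).toWord.head? = some (0, true) then (1 : ℝ) else 0)
        + ((if (c x).toWord.head? = some (1, false) then (1 : ℝ) else 0)
        + (if (c x).toWord.head? = some (1, true) then (1 : ℝ) else 0)) ≤ 1
      rcases hh : (c x).toWord.head? with _ | ⟨i, b⟩
      · simp
      · fin_cases i <;> cases b <;> simp
    nlinarith [hf.1 x]
  have := h1 0
  have := h1 1
  linarith

end Pool.Agent.Helper54.DFH
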