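import Pool.Agent.Helper54.DFH.Coset

/-! Amenability of a group from amenability of a coset action and of the subgroups. -/

namespace Pool.Agent.Helper54.DFH

open Finsupp

universe u v w

variable {G : Type u} [Group G]

/-- If the action on the cosets of members of `𝓕` is amenable and every member of `𝓕` is
amenable, then `G` is amenable. -/
theorem amenable_of_cosets {𝓕 : Set (Subgroup G)} (hX : AmenableAction G (Cosets 𝓕))
    (h𝓕 : ∀ H ∈ 𝓕, AmenableAction H H) : AmenableAction G G := by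
  classical
  intro T ε hε
  obtain ⟨ν, hν, hνT⟩ := hX T (ε / 2) (by positivity)
  let σ : Cosets 𝓕 → G := fun x => x.2.out
  have hσ : ∀ x : Cosets 𝓕, ((σ x : G) : G ⧸ (x.1 : Subgroup G)) = x.2 := fun x =>
    QuotientGroup.out_eq' x.2
  have hmem : ∀ (t : G) (x : Cosets 𝓕), (σ (t • x))⁻¹ * (t * σ x) ∈ (x.1 : Subgroup G) := by
    intro t x
    rw [← QuotientGroup.eq]
    have h1 : ((σ (t • x) : G) : G ⧸ (x.1 : Subgroup G)) = t • x.2 := hσ (t • x)
    rw [h1, ← hσ x]
    rfl
  let TT : ∀ H : 𝓕, Finset (H : Subgroup G) := fun H =>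
    (T ×ˢ ν.support).image fun p =>
      if h : (σ (p.1 • p.2))⁻¹ * (p.1 * σ p.2) ∈ (H : Subgroup G) then ⟨_, h⟩ else 1
  choose f hf hfT using fun H : 𝓕 => h𝓕 H.1 H.2 (TT H) (ε / 2) (by positivity)
  let f' : 𝓕 → (G →₀ ℝ) := fun H => (f H).mapDomain (fun h : (H : Subgroup G) => (h : G))
  have hf' : ∀ H, IsProb (f' H) := fun H => isProb_mapDomain _ (hf H)
  let W : Cosets 𝓕 → (G →₀ ℝ) := fun x => (f' x.1).mapDomain (fun g => σ x * g)
  have hW : ∀ x, IsProb (W x) := fun x => isProb_mapDomain _ (hf' _)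
  refine ⟨Finsupp.linearCombination ℝ W ν, isProb_lc hν fun x _ => hW x, fun t ht => ?_⟩
  have h1 : (Finsupp.linearCombination ℝ W ν).mapDomain (fun g => t • g)
      = Finsupp.linearCombination ℝ (fun x => (W x).mapDomain (fun g => t • g)) ν :=
    mapDomain_lc _ _ _
  have h2 : Finsupp.linearCombination ℝ W (ν.mapDomain (fun x => t • x))
      = Finsupp.linearCombination ℝ (fun x => W (t • x)) ν := lc_mapDomain _ _ _
  have h3 : nrm ((Finsupp.linearCombination ℝ W ν).mapDomain (fun g => t • g)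
      - Finsupp.linearCombination ℝ W (ν.mapDomain (fun x => t • x))) ≤ ε / 2 := by
    rw [h1, h2, lc_sub]
    refine (nrm_lc_le _ _ (ε / 2) fun x hx => ?_).trans (by rw [hν.nrm_eq, mul_one])
    -- pointwise estimate
    set k : (x.1 : Subgroup G) := ⟨_, hmem t x⟩ with hk
    have hk' : σ (t • x) * (k : G) = t * σ x := by
      rw [hk]; simp
    have hkT : k ∈ TT x.1 := by
      refine Finset.mem_image.mpr ⟨(t, x), Finset.mem_product.mpr ⟨ht, hx⟩, ?_⟩
      show (if h : (σ (t • x))⁻¹ * (t * σ x) ∈ (x.1 : Subgroup G) then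
        (⟨_, h⟩ : (x.1 : Subgroup G)) else 1) = k
      rw [dif_pos (hmem t x)]
    have h4 : (W x).mapDomain (fun g => t • g)
        = (((f x.1).mapDomain (fun h => k • h)).mapDomain (fun h : (x.1 : Subgroup G) => (h : G))).mapDomain
            (fun g => σ (t • x) * g) := by
      show (((f x.1).mapDomain (fun h : (x.1 : Subgroup G) => (h : G))).mapDomain (fun g => σ x * g)).mapDomain
        (fun g => t • g) = _
      rw [← Finsupp.mapDomain_comp, ← Finsupp.mapDomain_comp, ← Finsupp.mapDomain_comp,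
        ← Finsupp.mapDomain_comp]
      congr 1
      funext h
      show t * (σ x * (h : G)) = σ (t • x) * ((k : G) * (h : G))
      rw [← mul_assoc, ← mul_assoc, hk']
    have h5 : W (t • x) = ((f x.1).mapDomain (fun h : (x.1 : Subgroup G) => (h : G))).mapDomain
            (fun g => σ (t • x) * g) := rfl
    rw [h4, h5, ← mapDomain_sub, ← mapDomain_sub]
    exact ((nrm_mapDomain_le _ _).trans (nrm_mapDomain_le _ _)).trans (hfT x.1 k hkT)
  have h6 : nrm (Finsupp.linearCombination ℝ W (ν.mapDomain (fun x => t • x))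
      - Finsupp.linearCombination ℝ W ν) ≤ ε / 2 := by
    rw [← map_sub]
    refine (nrm_lc_le W _ 1 fun x _ => (hW x).nrm_eq.le).trans ?_
    rw [one_mul]
    exact hνT t ht
  calc nrm ((Finsupp.linearCombination ℝ W ν).mapDomain (fun g => t • g)
          - Finsupp.linearCombination ℝ W ν)
        ≤ _ := nrm_sub_le_add _ (Finsupp.linearCombination ℝ W (ν.mapDomain (fun x => t • x))) _
    _ ≤ ε / 2 + ε / 2 := add_le_add h3 h6
    _ = ε := by ring

/-- Cyclic groups are amenable. -/
theorem amenable_zpowers (z : G) :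
    AmenableAction (Subgroup.zpowers z) (Subgroup.zpowers z) := by
  classical
  set ζ : Subgroup.zpowers z := ⟨z, Subgroup.mem_zpowers z⟩ with hζ
  have hgen : Subgroup.closure ({ζ, ζ⁻¹} : Set (Subgroup.zpowers z)) = ⊤ := by
    rw [Subgroup.eq_top_iff']
    rintro ⟨x, hx⟩
    obtain ⟨n, rfl⟩ := Subgroup.mem_zpowers_iff.mp hx
    have h1 : ζ ^ n ∈ Subgroup.closure ({ζ, ζ⁻¹} : Set (Subgroup.zpowers z)) :=
      Subgroup.zpow_mem _ (Subgroup.subset_closure (by simp)) n
    exact h1
  refine amenableAction_of_gen (S := {ζ, ζ⁻¹}) (by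
    intro s hs
    rcases hs with rfl | hs
    · simp
    · rw [Set.mem_singleton_iff] at hs
      subst hs
      simp) hgen fun δ hδ => ?_
  obtain ⟨M, hM⟩ := exists_nat_gt (2 / δ)
  have hM0 : (0 : ℝ) < M := lt_trans (by positivity) hM
  have hM1 : 0 < M := by exact_mod_cast hM0
  let f : Subgroup.zpowers z →₀ ℝ := ∑ k ∈ Finset.range M, single (ζ ^ k) ((M : ℝ)⁻¹)
  have hf : IsProb f := by
    constructor
    · intro x
      show 0 ≤ (∑ k ∈ Finset.range M, single (ζ ^ k) ((M : ℝ)⁻¹)) x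
      rw [Finsupp.finsetSum_apply]
      refine Finset.sum_nonneg fun k _ => ?_
      rw [Finsupp.single_apply]
      split_ifs
      · positivity
      · exact le_rfl
    · rw [← tot_apply]
      show tot (∑ k ∈ Finset.range M, single (ζ ^ k) ((M : ℝ)⁻¹)) = 1
      rw [map_sum]
      have : ∀ k ∈ Finset.range M, tot (single (ζ ^ k) ((M : ℝ)⁻¹)) = (M : ℝ)⁻¹ := by
        intro k _
        rw [tot_apply, Finsupp.sum_single_index rfl]
      rw [Finset.sum_congr rfl this, Finset.sum_const, Finset.card_range, nsmul_eq_mul]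
      field_simp
  have key : nrm (f.mapDomain (fun x => ζ • x) - f) ≤ δ := by
    have h1 : f.mapDomain (fun x => ζ • x)
        = ∑ k ∈ Finset.range M, single (ζ ^ (k + 1)) ((M : ℝ)⁻¹) := by
      show (∑ k ∈ Finset.range M, single (ζ ^ k) ((M : ℝ)⁻¹)).mapDomain (fun x => ζ • x) = _
      rw [Finsupp.mapDomain_finsetSum]
      refine Finset.sum_congr rfl fun k _ => ?_
      rw [Finsupp.mapDomain_single, smul_eq_mul, pow_succ']
    have h2 : f.mapDomain (fun x => ζ • x) - f
        = single (ζ ^ M) ((M : ℝ)⁻¹) - single (ζ ^ 0) ((M : ℝ)⁻¹) := by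
      rw [h1]
      show _ - (∑ k ∈ Finset.range M, single (ζ ^ k) ((M : ℝ)⁻¹)) = _
      rw [← Finset.sum_sub_distrib]
      exact Finset.sum_range_sub (fun k => single (ζ ^ k) ((M : ℝ)⁻¹)) M
    rw [h2, sub_eq_add_neg]
    refine (nrm_add_le _ _).trans ?_
    rw [nrm_neg, nrm_single, nrm_single, abs_of_pos (by positivity)]
    have h3 : 2 < δ * M := by
      rw [div_lt_iff₀ hδ] at hM
      linarith
    have h4 : (M : ℝ)⁻¹ + (M : ℝ)⁻¹ = 2 / M := by ring
    rw [h4, div_le_iff₀ hM0]
    exact h3.le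
  refine ⟨f, hf, fun s hs => ?_⟩
  rcases hs with rfl | hs
  · exact key
  · rw [Set.mem_singleton_iff] at hs
    subst hs
    have h1 : f.mapDomain (fun x => ζ⁻¹ • x) - f
        = -((f.mapDomain (fun x => ζ • x) - f).mapDomain (fun x => ζ⁻¹ • x)) := by
      rw [mapDomain_sub, ← Finsupp.mapDomain_comp]
      have : (fun x : Subgroup.zpowers z => ζ⁻¹ • x) ∘ (fun x => ζ • x) = id := by
        funext x; simp
      rw [this, Finsupp.mapDomain_id]
      abel
    rw [h1, nrm_neg]
    exact (nrm_mapDomain_le _ _).trans key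

/-- A finite coset space is amenable. -/
theorem amenable_finite_index (H : Subgroup G) [H.FiniteIndex] :
    AmenableAction G (Cosets ({H} : Set (Subgroup G))) := by
  classical
  intro T ε hε
  letI : Fintype (G ⧸ H) := H.fintypeQuotientOfFiniteIndex
  have hc : (0 : ℝ) < Fintype.card (G ⧸ H) := by
    have : 0 < Fintype.card (G ⧸ H) := Fintype.card_pos
    exact_mod_cast this
  let i : G ⧸ H → Cosets ({H} : Set (Subgroup G)) := fun x => ⟨⟨H, rfl⟩, x⟩
  let f : (Cosets ({H} : Set (Subgroup G))) →₀ ℝ :=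
    ∑ x : G ⧸ H, single (i x) ((Fintype.card (G ⧸ H) : ℝ)⁻¹)
  refine ⟨f, ⟨fun y => ?_, ?_⟩, fun t _ => ?_⟩
  · show 0 ≤ (∑ x : G ⧸ H, single (i x) ((Fintype.card (G ⧸ H) : ℝ)⁻¹)) y
    rw [Finsupp.finsetSum_apply]
    refine Finset.sum_nonneg fun k _ => ?_
    rw [Finsupp.single_apply]
    split_ifs
    · positivity
    · exact le_rfl
  · rw [← tot_apply]
    show tot (∑ x : G ⧸ H, single (i x) ((Fintype.card (G ⧸ H) : ℝ)⁻¹)) = 1
    rw [map_sum]
    have : ∀ x ∈ (Finset.univ : Finset (G ⧸ H)),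
        tot (single (i x) ((Fintype.card (G ⧸ H) : ℝ)⁻¹)) = (Fintype.card (G ⧸ H) : ℝ)⁻¹ := by
      intro k _
      rw [tot_apply, Finsupp.sum_single_index rfl]
    rw [Finset.sum_congr rfl this, Finset.sum_const, Finset.card_univ, nsmul_eq_mul]
    field_simp
  · have h1 : f.mapDomain (fun x => t • x) = f := by
      show (∑ x : G ⧸ H, single (i x) ((Fintype.card (G ⧸ H) : ℝ)⁻¹)).mapDomain
        (fun x => t • x) = ∑ x : G ⧸ H, single (i x) ((Fintype.card (G ⧸ H) : ℝ)⁻¹)
      rw [Finsupp.mapDomain_finsetSum]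
      refine Fintype.sum_equiv (MulAction.toPerm t) _ _ fun x => ?_
      rw [Finsupp.mapDomain_single]
      rfl
    rw [h1, sub_self, nrm_zero]
    exact hε.le

/-- Virtually cyclic groups are amenable. -/
theorem amenable_vcyc (z : G) (hz : (Subgroup.zpowers z).FiniteIndex) : AmenableAction G G :=
  amenable_of_cosets (𝓕 := {Subgroup.zpowers z}) (amenable_finite_index _) fun H hH => by
    rw [Set.mem_singleton_iff] at hH
    subst hH
    exact amenable_zpowers z

end Pool.Agent.Helper54.DFH
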