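import Mathlib

/-! Kazhdan's property (T). -/

namespace Pool.Agent.Helper54.DFH

universe u

/-- Kazhdan's property (T) for a discrete group `G`: there are a finite set `Q ⊆ G` and `κ > 0`
such that every unitary representation of `G` on a complex Hilbert space which has a unit
vector `ξ` with `‖ρ(g) ξ - ξ‖ ≤ κ` for all `g ∈ Q` has a nonzero invariant vector. -/
def PropertyT (G : Type u) [Group G] : Prop :=
  ∃ (Q : Finset G) (κ : ℝ), 0 < κ ∧ ∀ (E : Type u) [NormedAddCommGroup E]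
    [InnerProductSpace ℂ E] [CompleteSpace E] (ρ : G →* (E ≃ₗᵢ[ℂ] E)) (ξ : E), ‖ξ‖ = 1 →
      (∀ g ∈ Q, ‖ρ g ξ - ξ‖ ≤ κ) → ∃ η : E, η ≠ 0 ∧ ∀ g, ρ g η = η

end Pool.Agent.Helper54.DFH
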