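import Pool.Agent.Helper54.DFH.Coset
import Pool.Agent.Helper54.DFH.PropTDef

/-! Property (T) and the cosets of members of the family. -/

namespace Pool.Agent.Helper54.DFH

open Finsupp

universe u v w

section perm

variable {G : Type u} [Group G] {X : Type u} [MulAction G X]

/-- `ℓ²(X)`. -/
noncomputable abbrev L2 (X : Type u) := lp (fun _ : X => ℂ) 2

theorem mem_perm (g : G) (f : L2 X) :
    Memℓp (E := fun _ : X => ℂ) (fun x : X => f (g⁻¹ • x)) 2 := by
  have h : Memℓp (E := fun _ : X => ℂ) (fun x : X => f x) 2 := lp.memℓp f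
  rw [memℓp_gen_iff (by norm_num)] at h ⊢
  have h2 := (Equiv.summable_iff (f := fun x : X => ‖f x‖ ^ (2 : ENNReal).toReal)
    (MulAction.toPerm (g⁻¹ : G))).mpr h
  exact h2

/-- Translation of a square summable function. -/
noncomputable def tr (g : G) (f : L2 X) : L2 X := ⟨fun x => f (g⁻¹ • x), mem_perm g f⟩

theorem tr_apply (g : G) (f : L2 X) (x : X) : tr g f x = f (g⁻¹ • x) := rfl

theorem norm_tr (g : G) (f : L2 X) : ‖tr g f‖ = ‖f‖ := by
  have h1 := lp.norm_rpow_eq_tsum (p := 2) (by norm_num) (tr g f)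
  have h2 := lp.norm_rpow_eq_tsum (p := 2) (by norm_num) f
  have h3 : ∑' x, ‖tr g f x‖ ^ (2 : ENNReal).toReal = ∑' x, ‖f x‖ ^ (2 : ENNReal).toReal :=
    Equiv.tsum_eq (MulAction.toPerm (g⁻¹ : G)) (fun x => ‖f x‖ ^ (2 : ENNReal).toReal)
  rw [h3, ← h2] at h1
  exact (Real.rpow_left_inj (norm_nonneg _) (norm_nonneg _) (by norm_num)).mp h1

/-- The permutation representation on `ℓ²(X)`. -/
noncomputable def perm : G →* (L2 X ≃ₗᵢ[ℂ] L2 X) where
  toFun g :=
    { toFun := tr g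
      invFun := tr g⁻¹
      map_add' := fun a b => rfl
      map_smul' := fun c a => rfl
      left_inv := fun f => by
        ext x
        rw [tr_apply, tr_apply, inv_inv, inv_smul_smul]
      right_inv := fun f => by
        ext x
        rw [tr_apply, tr_apply, inv_inv, smul_inv_smul]
      norm_map' := norm_tr g }
  map_one' := by
    ext f x
    show f ((1 : G)⁻¹ • x) = f x
    rw [inv_one, one_smul]
  map_mul' a b := by
    ext f x
    show f ((a * b)⁻¹ • x) = f (b⁻¹ • (a⁻¹ • x))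
    rw [mul_inv_rev, mul_smul]

theorem mem_sqrt (f : X →₀ ℝ) :
    Memℓp (E := fun _ : X => ℂ) (fun x : X => ((Real.sqrt (f x) : ℝ) : ℂ)) 2 := by
  rw [memℓp_gen_iff (by norm_num)]
  refine summable_of_ne_finset_zero (s := f.support) fun x hx => ?_
  rw [Finsupp.notMem_support_iff] at hx
  simp [hx]

/-- The square root, as a vector of `ℓ²(X)`. -/
noncomputable def sqv (f : X →₀ ℝ) : L2 X := ⟨fun x => ((Real.sqrt (f x) : ℝ) : ℂ), mem_sqrt f⟩

theorem norm_sq_eq (f : L2 X) : ‖f‖ ^ 2 = ∑' x, ‖f x‖ ^ 2 := by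
  have h2 := lp.norm_rpow_eq_tsum (p := 2) (by norm_num) f
  simpa using h2

theorem norm_sq_one {f : X →₀ ℝ} (hf : IsProb f) : ‖sqv f‖ = 1 := by
  have h1 : ‖sqv f‖ ^ 2 = 1 := by
    rw [norm_sq_eq]
    have h2 : ∀ x, ‖(sqv f) x‖ ^ 2 = f x := by
      intro x
      show ‖((Real.sqrt (f x) : ℝ) : ℂ)‖ ^ 2 = f x
      rw [Complex.norm_real, Real.norm_eq_abs, sq_abs, Real.sq_sqrt (hf.1 x)]
    rw [tsum_congr h2, tsum_eq_sum (s := f.support) fun x hx => by
      rwa [Finsupp.notMem_support_iff] at hx]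
    exact hf.2
  have h0 : 0 ≤ ‖sqv f‖ := norm_nonneg _
  nlinarith

theorem sqrt_diff_sq (a b : ℝ) (ha : 0 ≤ a) (hb : 0 ≤ b) :
    (Real.sqrt a - Real.sqrt b) ^ 2 ≤ |a - b| := by
  have h1 := Real.sq_sqrt ha
  have h2 := Real.sq_sqrt hb
  have h3 := Real.sqrt_nonneg a
  have h4 := Real.sqrt_nonneg b
  have h5 : a - b = (Real.sqrt a - Real.sqrt b) * (Real.sqrt a + Real.sqrt b) := by nlinarith
  rw [h5, abs_mul, abs_of_nonneg (add_nonneg h3 h4), ← sq_abs, sq]
  refine mul_le_mul_of_nonneg_left ?_ (abs_nonneg _)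
  rw [abs_le]
  constructor <;> linarith

theorem norm_perm_sq_sub {f : X →₀ ℝ} (hf : IsProb f) (g : G) :
    ‖perm g (sqv f) - sqv f‖ ^ 2 ≤ nrm (f.mapDomain (fun x => g • x) - f) := by
  classical
  rw [norm_sq_eq]
  set F : X →₀ ℝ := f.mapDomain (fun x => g • x) with hF
  have hFx : ∀ x, F x = f (g⁻¹ • x) := by
    intro x
    have h2 : x = g • (g⁻¹ • x) := by rw [smul_inv_smul]
    rw [hF]
    conv_lhs => rw [h2]
    rw [Finsupp.mapDomain_apply (MulAction.injective g)]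
  have h1 : ∀ x, ‖(perm g (sqv f) - sqv f) x‖ ^ 2 ≤ |(F - f) x| := by
    intro x
    have h3 : (perm g (sqv f) - sqv f) x
        = ((Real.sqrt (f (g⁻¹ • x)) - Real.sqrt (f x) : ℝ) : ℂ) := by
      push_cast
      rfl
    rw [h3, Complex.norm_real, Real.norm_eq_abs, sq_abs, Finsupp.sub_apply, hFx]
    exact sqrt_diff_sq _ _ (hf.1 _) (hf.1 _)
  have h4 : ∀ x ∉ (F - f).support, ‖(perm g (sqv f) - sqv f) x‖ ^ 2 = 0 := by
    intro x hx
    rw [Finsupp.notMem_support_iff] at hx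
    have := h1 x
    rw [hx, abs_zero] at this
    exact le_antisymm this (by positivity)
  rw [tsum_eq_sum (s := (F - f).support) h4, nrm_eq_sum (Finset.Subset.refl _)]
  exact Finset.sum_le_sum fun x _ => h1 x

end perm

/-- A group with property (T) whose action on the cosets of members of `𝓕` is amenable has a
subgroup of finite index in `𝓕`. -/
theorem exists_finiteIndex {G : Type u} [Group G] (hT : PropertyT G) {𝓕 : Set (Subgroup G)}
    (hX : AmenableAction G (Cosets 𝓕)) : ∃ H ∈ 𝓕, H.FiniteIndex := by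
  classical
  obtain ⟨Q, κ, hκ, hQ⟩ := hT
  obtain ⟨f, hf, hfQ⟩ := hX Q (κ ^ 2) (by positivity)
  obtain ⟨η, hη, hinv⟩ := hQ (L2 (Cosets 𝓕)) perm (sqv f) (norm_sq_one hf) fun g hg => by
    have h1 := (norm_perm_sq_sub hf g).trans (hfQ g hg)
    exact (pow_le_pow_iff_left₀ (norm_nonneg _) hκ.le two_ne_zero).mp h1
  obtain ⟨x0, hx0⟩ : ∃ x, η x ≠ 0 := by
    by_contra hcon
    push Not at hcon
    exact hη (by ext x; simpa using hcon x)
  have hinv' : ∀ (g : G) (x : Cosets 𝓕), η (g • x) = η x := by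
    intro g x
    have h1 : (perm g η) (g • x) = η (g • x) := by rw [hinv g]
    have h2 : (perm g η) (g • x) = η (g⁻¹ • (g • x)) := rfl
    rw [inv_smul_smul] at h2
    rw [← h1, h2]
  have hsum : Summable fun x => ‖η x‖ ^ 2 := by
    have h := lp.memℓp η
    rw [memℓp_gen_iff (by norm_num)] at h
    simpa using h
  have hpos : 0 < ‖η x0‖ ^ 2 := by positivity
  have hfin : {x : Cosets 𝓕 | ‖η x0‖ ^ 2 ≤ ‖η x‖ ^ 2}.Finite := by
    have h1 := hsum.tendsto_cofinite_zero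
    have h2 : ∀ᶠ x in Filter.cofinite, ‖η x‖ ^ 2 < ‖η x0‖ ^ 2 :=
      h1.eventually (gt_mem_nhds hpos)
    rw [Filter.eventually_cofinite] at h2
    refine h2.subset fun x hx => ?_
    simpa using hx
  refine ⟨x0.1, x0.1.2, ?_⟩
  have hfin2 : Finite (G ⧸ (x0.1 : Subgroup G)) := by
    have h3 : ∀ y : G ⧸ (x0.1 : Subgroup G),
        (⟨x0.1, y⟩ : Cosets 𝓕) ∈ {x : Cosets 𝓕 | ‖η x0‖ ^ 2 ≤ ‖η x‖ ^ 2} := by
      intro y
      obtain ⟨b, hb⟩ := QuotientGroup.mk_surjective y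
      obtain ⟨a, ha⟩ := QuotientGroup.mk_surjective x0.2
      have h4 : (⟨x0.1, y⟩ : Cosets 𝓕) = (b * a⁻¹) • x0 := by
        have h5 : (b * a⁻¹) • x0.2 = y := by
          rw [← ha, ← hb]
          show (((b * a⁻¹) * a : G) : G ⧸ (x0.1 : Subgroup G)) = (b : G ⧸ (x0.1 : Subgroup G))
          rw [inv_mul_cancel_right]
        rw [← h5]
        rfl
      rw [h4]
      show ‖η x0‖ ^ 2 ≤ ‖η ((b * a⁻¹) • x0)‖ ^ 2
      rw [hinv']
    have := hfin.to_subtype
    refine Finite.of_injective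
      (fun y : G ⧸ (x0.1 : Subgroup G) =>
        (⟨⟨x0.1, y⟩, h3 y⟩ : {x : Cosets 𝓕 | ‖η x0‖ ^ 2 ≤ ‖η x‖ ^ 2})) ?_
    intro y y' hyy
    have h6 := congrArg Subtype.val hyy
    simpa using h6
  exact Subgroup.finiteIndex_of_finite_quotient

end Pool.Agent.Helper54.DFH
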